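import Pool.Agent.U403.Ldp.Lo

/-! # Joint large deviations: the covariances -/

set_option autoImplicit false

open Filter Topology MeasureTheory Set
open Pool.Agent.Y743.CL
open Pool.Agent.R320.JL
open Pool.Agent.U403.Max
open Pool.Agent.U403.Ldp

namespace Pool.Agent.U403.Joint

noncomputable section

/-- the covariance of the differences of two fields -/
def cc (l : ℝ) (I J : Finset ℕ) (h h' : ℝ) (X : ℕ) : ℝ :=
  (∑ p ∈ Pr X, (zd l I h p * (starRingEnd ℂ) (zd l J h' p)).re) / 2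

lemma cc_symm (l : ℝ) (I J : Finset ℕ) (h h' : ℝ) (X : ℕ) : cc l I J h h' X = cc l J I h' h X := by
  unfold cc
  congr 1
  refine Finset.sum_congr rfl fun p _ => ?_
  have : zd l J h' p * (starRingEnd ℂ) (zd l I h p) = (starRingEnd ℂ) (zd l I h p * (starRingEnd ℂ) (zd l J h' p)) := by
    rw [map_mul, Complex.conj_conj, mul_comm]
  rw [this, Complex.conj_re]

lemma zd_mul (l : ℝ) {I J : Finset ℕ} (h h' : ℝ) {p : ℕ} (hp : p ∈ I) (hpJ : p ∈ J) (hp0 : p ≠ 0) :
    (zd l I h p * (starRingEnd ℂ) (zd l J h' p)).re =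
      be l p ^ 2 * (Real.cos ((h - h') * Real.log p) - Real.cos (h * Real.log p) - Real.cos (h' * Real.log p) + 1) := by
  unfold zd
  rw [if_pos hp, if_pos hpJ, cpow_re_im hp0, cpow_re_im hp0]
  have e : Real.cos ((h - h') * Real.log p) = Real.cos (h * Real.log p) * Real.cos (h' * Real.log p) +
      Real.sin (h * Real.log p) * Real.sin (h' * Real.log p) := by
    rw [sub_mul, Real.cos_sub]
  rw [e]
  generalize Real.sin (h * Real.log p) = s1
  generalize Real.sin (h' * Real.log p) = s2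
  generalize Real.cos (h * Real.log p) = c1
  generalize Real.cos (h' * Real.log p) = c2
  simp only [map_mul, map_sub, map_neg, map_one, Complex.conj_I, Complex.conj_ofReal]
  simp only [Complex.mul_re, Complex.mul_im, Complex.sub_re, Complex.sub_im, Complex.neg_re, Complex.neg_im,
    Complex.I_re, Complex.I_im, Complex.ofReal_re, Complex.ofReal_im, Complex.one_re, Complex.one_im]
  ring

lemma cc_eq (l : ℝ) {I J : Finset ℕ} {X : ℕ} (hIJ : I ⊆ J) (hJ : J ⊆ Pr X) (h h' : ℝ) :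
    cc l I J h h' X = cI l I (h - h') - cI l I h - cI l I h' + vI l I := by
  unfold cc cI vI
  have e : ∑ p ∈ Pr X, (zd l I h p * (starRingEnd ℂ) (zd l J h' p)).re =
      ∑ p ∈ I, (zd l I h p * (starRingEnd ℂ) (zd l J h' p)).re := by
    symm
    apply Finset.sum_subset (hIJ.trans hJ)
    intro p _ hp
    have : zd l I h p = 0 := by
      unfold zd
      rw [if_neg hp]
    rw [this, zero_mul, Complex.zero_re]
  rw [e, Finset.sum_congr rfl (fun p hp => zd_mul l h h' hp (hIJ hp) (mem_Pr.1 (hJ (hIJ hp))).1.ne_zero)]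
  have e2 : ∀ p ∈ I, be l p ^ 2 * (Real.cos ((h - h') * Real.log p) - Real.cos (h * Real.log p) -
      Real.cos (h' * Real.log p) + 1) = be l p ^ 2 * Real.cos ((h - h') * Real.log p) -
      be l p ^ 2 * Real.cos (h * Real.log p) - be l p ^ 2 * Real.cos (h' * Real.log p) + be l p ^ 2 :=
    fun p _ => by ring
  rw [Finset.sum_congr rfl e2, Finset.sum_add_distrib, Finset.sum_sub_distrib, Finset.sum_sub_distrib]
  ring

/-- the variance of a linear combination -/
lemma VS_comb {k : ℕ} (θ : Fin k → ℝ) (l : ℝ) (I : Fin k → Finset ℕ) (h : Fin k → ℝ) (X : ℕ) :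
    VS (nz (fun p => ∑ i, (θ i : ℂ) * zd l (I i) (h i) p)) X =
      2 * ∑ i, ∑ j, θ i * θ j * cc l (I i) (I j) (h i) (h j) X := by
  unfold VS nz cc
  have e : ∀ p, ‖∑ i, (θ i : ℂ) * zd l (I i) (h i) p‖ ^ 2 =
      ∑ i, ∑ j, θ i * θ j * (zd l (I i) (h i) p * (starRingEnd ℂ) (zd l (I j) (h j) p)).re := by
    intro p
    have h1 : ((‖∑ i, (θ i : ℂ) * zd l (I i) (h i) p‖ ^ 2 : ℝ) : ℂ) = (∑ i, (θ i : ℂ) * zd l (I i) (h i) p) *
        (starRingEnd ℂ) (∑ i, (θ i : ℂ) * zd l (I i) (h i) p) := by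
      rw [Complex.mul_conj, Complex.normSq_eq_norm_sq]
    have h2 := congrArg Complex.re h1
    rw [Complex.ofReal_re] at h2
    rw [h2, map_sum, Finset.sum_mul_sum, Complex.re_sum]
    refine Finset.sum_congr rfl fun i _ => ?_
    rw [Complex.re_sum]
    refine Finset.sum_congr rfl fun j _ => ?_
    rw [map_mul, Complex.conj_ofReal]
    have e3 : (θ i : ℂ) * zd l (I i) (h i) p * ((θ j : ℂ) * (starRingEnd ℂ) (zd l (I j) (h j) p)) =
        ((θ i * θ j : ℝ) : ℂ) * (zd l (I i) (h i) p * (starRingEnd ℂ) (zd l (I j) (h j) p)) := by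
      push_cast; ring
    rw [e3, Complex.re_ofReal_mul]
  simp only [e]
  rw [Finset.sum_comm, Finset.mul_sum]
  refine Finset.sum_congr rfl fun i _ => ?_
  rw [Finset.sum_comm, Finset.mul_sum]
  refine Finset.sum_congr rfl fun j _ => ?_
  rw [← Finset.mul_sum]
  ring

/-- the limit matrix -/
def SS2 {k : ℕ} (a : Fin k → ℝ) (i j : Fin k) : ℝ := (min (a i) (a j) + if i = j then a i else 0) / (2 * Real.pi ^ 2)

/-- the lengths of the windows -/
def dd2 (a : ℝ) (r : ℕ) : ℕ := ⌊Real.exp (a * Real.log r)⌋₊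

lemma dd2_le (a : ℝ) (r : ℕ) : (dd2 a r : ℝ) ≤ Real.exp (a * Real.log r) := Nat.floor_le (Real.exp_pos _).le

lemma dd2_ge (a : ℝ) (r : ℕ) : Real.exp (a * Real.log r) - 1 ≤ dd2 a r := by
  have := Nat.lt_floor_add_one (Real.exp (a * Real.log r))
  unfold dd2
  linarith

/-- the distances of the points are large -/
lemma sizes {k : ℕ} (a : Fin k → ℝ) (ha : ∀ i, 0 < a i) (ha1 : ∀ i, a i ≤ 1) :
    ∀ᶠ r : ℕ in atTop, (∀ i, 1 ≤ dd2 (a i) r ∧ dd2 (a i) r ≤ r ∧ Real.exp (a i * Real.log r) ≤ 2 * dd2 (a i) r) ∧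
      ∀ i j, a i < a j → Real.exp (a i * Real.log r) ≤ 2 * ((dd2 (a j) r : ℝ) - dd2 (a i) r) := by
  have h1 : ∀ i, ∀ᶠ r : ℕ in atTop, 2 / a i ≤ Real.log r := fun i => logr_top.eventually_ge_atTop _
  have h2 : ∀ i j, ∀ᶠ r : ℕ in atTop, a i < a j → 2 / (a j - a i) ≤ Real.log r := fun i j =>
    (logr_top.eventually_ge_atTop _).mono fun r hr _ => hr
  rw [← eventually_all] at h1
  have h2' : ∀ᶠ r : ℕ in atTop, ∀ i j, a i < a j → 2 / (a j - a i) ≤ Real.log r := by
    rw [eventually_all]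
    intro i
    rw [eventually_all]
    exact h2 i
  filter_upwards [h1, h2', eventually_ge_atTop 1] with r g1 g2 hr
  have hr0 : (0 : ℝ) < r := by exact_mod_cast hr
  have hexp : ∀ x : ℝ, 2 ≤ x → 4 ≤ Real.exp x := by
    intro x hx
    have h3 := Real.exp_le_exp.2 hx
    have h4 : Real.exp 2 = Real.exp 1 ^ 2 := by rw [← Real.exp_nat_mul]; norm_num
    have := Real.exp_one_gt_d9
    nlinarith
  have g3 : ∀ i, 4 ≤ Real.exp (a i * Real.log r) := by
    intro i
    apply hexp
    have := g1 i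
    rw [div_le_iff₀ (ha i)] at this
    linarith
  refine ⟨fun i => ⟨?_, ?_, ?_⟩, fun i j hij => ?_⟩
  · apply Nat.le_floor
    rw [Nat.cast_one]
    linarith [g3 i]
  · have h3 : (dd2 (a i) r : ℝ) ≤ r := by
      refine (dd2_le _ _).trans ?_
      have hl : 0 ≤ Real.log r := Real.log_nonneg (by exact_mod_cast hr)
      calc Real.exp (a i * Real.log r) ≤ Real.exp (Real.log r) := Real.exp_le_exp.2 (by nlinarith [ha1 i])
        _ = r := Real.exp_log hr0
    exact_mod_cast h3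
  · linarith [dd2_ge (a i) r, g3 i]
  · have h3 : 4 * Real.exp (a i * Real.log r) ≤ Real.exp (a j * Real.log r) := by
      have h4 : Real.exp (a j * Real.log r) = Real.exp ((a j - a i) * Real.log r) * Real.exp (a i * Real.log r) := by
        rw [← Real.exp_add]; congr 1; ring
      rw [h4]
      apply mul_le_mul_of_nonneg_right _ (Real.exp_pos _).le
      apply hexp
      have := g2 i j hij
      rw [div_le_iff₀ (by linarith)] at this
      linarith
    linarith [dd2_ge (a j) r, dd2_le (a i) r, g3 i]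

/-- **the covariances** -/
theorem covs {k : ℕ} (a : Fin k → ℝ) (ha : ∀ i, 0 < a i) (ha1 : ∀ i, a i ≤ 1) (hinj : Function.Injective a) :
    ∃ C2 : ℝ, 0 ≤ C2 ∧ ∀ κ : ℝ, 0 < κ → ∃ K₀ : ℕ, ∀ K : ℕ, K₀ ≤ K → 3 ≤ K → ∀ᶠ r : ℕ in atTop, ∀ B0 : ℝ, 0 < B0 →
    ∀ᶠ T : ℝ in atTop,
    (∀ i, ∀ p ∈ PI T (a i * Real.log r) (Real.log r / K), be (Real.log T / (κ * Real.log r)) p ^ 2 ≤ B0) ∧
    ∀ i j, |cc (Real.log T / (κ * Real.log r)) (PI T (a i * Real.log r) (Real.log r / K))
      (PI T (a j * Real.log r) (Real.log r / K)) (2 * Real.pi * dd2 (a i) r / Real.log T)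
      (2 * Real.pi * dd2 (a j) r / Real.log T) (XK (Real.exp (-(Real.log r / K))) T) - SS2 a i j * Real.log r| ≤
      Real.log r / K + C2 := by
  obtain ⟨C1, hC1, hpar⟩ := par2
  have hpi3 := Real.pi_gt_three
  have hpi := Real.pi_pos
  have hpi9 : 9 ≤ Real.pi ^ 2 := by nlinarith
  obtain ⟨K₀, hK₀⟩ : ∃ K₀ : ℕ, ∀ i, 2 / a i ≤ K₀ := by
    refine ⟨∑ i, ⌈2 / a i⌉₊, fun i => (Nat.le_ceil _).trans ?_⟩
    exact_mod_cast Finset.single_le_sum (f := fun i => ⌈2 / a i⌉₊) (fun _ _ => Nat.zero_le _) (Finset.mem_univ i)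
  refine ⟨C1 + 20, by positivity, fun κ hκ => ⟨K₀, fun K hK hK3 => ?_⟩⟩
  have hK0 : 0 < K := by omega
  have hKr : (3 : ℝ) ≤ K := by exact_mod_cast hK3
  have hKa : ∀ i, 1 / (K : ℝ) < a i := by
    intro i
    have h1 : 2 / a i ≤ K := (hK₀ i).trans (by exact_mod_cast hK)
    rw [div_le_iff₀ (ha i)] at h1
    rw [div_lt_iff₀ (by linarith)]
    linarith
  have e1 := ev_small hK0 (100 * κ) 0 1 (show (0 : ℝ) < 1 by norm_num)
  have e2 := ev_small hK0 (64 * κ) C1 2 (show (0 : ℝ) < 1 by norm_num)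
  filter_upwards [logr_top.eventually e1, logr_top.eventually e2, logr_top.eventually_ge_atTop 1,
    eventually_ge_atTop 1, sizes a ha ha1] with r h1 h2 h3 hr1 hsz B0 hB0
  obtain ⟨hs1, hs2⟩ := hsz
  have hr0 : (0 : ℝ) < r := by exact_mod_cast hr1
  obtain ⟨q, hq⟩ : ∃ q : ℝ, q = Real.log r := ⟨_, rfl⟩
  rw [← hq] at h1 h2 h3 hs1 hs2 ⊢
  have hq0 : 0 < q := by linarith
  simp only [add_zero, pow_one] at h1
  have hKq : 0 < q / K := by positivity
  have hKq1 : ∀ i, q / K < a i * q := by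
    intro i
    rw [← one_div_mul_eq_div]
    exact mul_lt_mul_of_pos_right (hKa i) hq0
  have haq : ∀ i, a i * q ≤ q := fun i => by nlinarith [ha1 i]
  have h4 : κ * q * Real.exp (-(q / K)) ≤ 1 / 100 := by
    have : 100 * (κ * q * Real.exp (-(q / K))) ≤ 1 := by
      calc _ = 100 * κ * (q * Real.exp (-(q / K))) := by ring
        _ ≤ 1 := h1
    linarith
  have hpa : ∀ᶠ T : ℝ in atTop, ∀ i, (∑ p ∈ PI T (a i * q) (q / K), be (Real.log T / (κ * q)) p ^ 2 ≤
      (a i * q - q / K + C1) / Real.pi ^ 2) ∧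
    ((1 - 64 * (κ * q * Real.exp (-(q / K)))) * ((a i * q - q / K - C1) / (2 * Real.pi ^ 2)) ≤
      vI (Real.log T / (κ * q)) (PI T (a i * q) (q / K))) ∧
    (∀ p ∈ PI T (a i * q) (q / K), be (Real.log T / (κ * q)) p ^ 2 ≤ B0) ∧
    (∀ d : ℕ, 1 ≤ d → d ≤ r → |cI (Real.log T / (κ * q)) (PI T (a i * q) (q / K)) (2 * Real.pi * d / Real.log T)| ≤
      Real.exp (a i * q) / d + 1 + 4 * (κ * q * Real.exp (-(q / K))) * (a i * q - q / K + C1)) := by
    rw [eventually_all]
    intro i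
    exact hpar κ q (a i * q) (q / K) B0 1 r hκ hq0 hKq.le (hKq1 i) h4 hB0 one_pos
  filter_upwards [hpa, eventually_ge_atTop 1] with T hT hT1
  refine ⟨fun i => (hT i).2.2.1, ?_⟩
  obtain ⟨l, hl⟩ : ∃ l : ℝ, l = Real.log T / (κ * q) := ⟨_, rfl⟩
  rw [← hl] at hT ⊢
  -- small quantities
  have c2 : ∀ i, 64 * (κ * q * Real.exp (-(q / K))) * (a i * q - q / K + C1) ≤ 1 := by
    intro i
    have h0 : 0 ≤ a i * q - q / K + C1 := by linarith [hKq1 i]
    calc 64 * (κ * q * Real.exp (-(q / K))) * (a i * q - q / K + C1) ≤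
        64 * (κ * (q + C1) * Real.exp (-(q / K))) * (q + C1) := by
          have : a i * q - q / K + C1 ≤ q + C1 := by linarith [haq i]
          have h5 : q ≤ q + C1 := by linarith
          gcongr
      _ = 64 * κ * ((q + C1) ^ 2 * Real.exp (-(q / K))) := by ring
      _ ≤ 1 := h2
  have c3 : ∀ i, ∀ d : ℕ, 1 ≤ d → d ≤ r → Real.exp (a i * q) ≤ 2 * d →
      |cI l (PI T (a i * q) (q / K)) (2 * Real.pi * d / Real.log T)| ≤ 4 := by
    intro i d hd1 hd2 hd3
    refine ((hT i).2.2.2 d hd1 hd2).trans ?_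
    have hd0 : (0 : ℝ) < d := by exact_mod_cast hd1
    have h5 : Real.exp (a i * q) / d ≤ 2 := by rw [div_le_iff₀ hd0]; exact hd3
    have h6 := c2 i
    have h0 : 0 ≤ (κ * q * Real.exp (-(q / K))) * (a i * q - q / K + C1) := by
      have : 0 ≤ a i * q - q / K + C1 := by linarith [hKq1 i]
      positivity
    linarith
  have c5 : ∀ i, |vI l (PI T (a i * q) (q / K)) - a i * q / (2 * Real.pi ^ 2)| ≤ q / K / 2 + C1 / 2 + 1 := by
    intro i
    obtain ⟨t1, t2, -, -⟩ := hT i
    have hqK0 := hKq.le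
    rw [abs_le]
    constructor
    · have e : (1 - 64 * (κ * q * Real.exp (-(q / K)))) * ((a i * q - q / K - C1) / (2 * Real.pi ^ 2)) =
          a i * q / (2 * Real.pi ^ 2) - (q / K + C1 + 64 * (κ * q * Real.exp (-(q / K))) * (a i * q - q / K - C1)) /
            (2 * Real.pi ^ 2) := by
        field_simp
        ring
      have h6 : 64 * (κ * q * Real.exp (-(q / K))) * (a i * q - q / K - C1) ≤ 1 := by
        refine le_trans ?_ (c2 i)
        have : 0 ≤ 64 * (κ * q * Real.exp (-(q / K))) := by positivity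
        apply mul_le_mul_of_nonneg_left _ this
        linarith
      have h7 : (q / K + C1 + 64 * (κ * q * Real.exp (-(q / K))) * (a i * q - q / K - C1)) / (2 * Real.pi ^ 2) ≤
          q / K / 2 + C1 / 2 + 1 := by
        rw [div_le_iff₀ (by positivity)]
        nlinarith
      rw [e] at t2
      linarith
    · have h7 : vI l (PI T (a i * q) (q / K)) ≤ (a i * q - q / K + C1) / Real.pi ^ 2 / 2 := by
        unfold vI
        linarith
      have h8 : (a i * q - q / K + C1) / Real.pi ^ 2 / 2 = a i * q / (2 * Real.pi ^ 2) +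
          (C1 - q / K) / (2 * Real.pi ^ 2) := by field_simp; ring
      have h9 : (C1 - q / K) / (2 * Real.pi ^ 2) ≤ q / K / 2 + C1 / 2 + 1 := by
        rw [div_le_iff₀ (by positivity)]
        nlinarith
      linarith
  -- nested sets
  have hsub : ∀ i j, a i ≤ a j → PI T (a i * q) (q / K) ⊆ PI T (a j * q) (q / K) := by
    intro i j hij
    unfold PI
    apply Finset.filter_subset_filter
    apply Finset.Ioc_subset_Ioc_left
    unfold XK
    apply Nat.floor_le_floor
    apply Real.rpow_le_rpow_of_exponent_le hT1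
    apply Real.exp_le_exp.2
    nlinarith
  have hPr : ∀ i, PI T (a i * q) (q / K) ⊆ Pr (XK (Real.exp (-(q / K))) T) := fun i => PI_sub hT1 le_rfl
  have hord : ∀ i j, a i < a j → |cc l (PI T (a i * q) (q / K)) (PI T (a j * q) (q / K))
      (2 * Real.pi * dd2 (a i) r / Real.log T) (2 * Real.pi * dd2 (a j) r / Real.log T)
      (XK (Real.exp (-(q / K))) T) - a i / (2 * Real.pi ^ 2) * q| ≤ q / K + (C1 + 20) := by
    intro i j hij
    rw [cc_eq l (hsub i j hij.le) (hPr j)]
    obtain ⟨i1, i2, i3⟩ := hs1 i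
    obtain ⟨j1, j2, j3⟩ := hs1 j
    have hs := hs2 i j hij
    have hdd : dd2 (a i) r < dd2 (a j) r := by
      have : (0 : ℝ) < (dd2 (a j) r : ℝ) - dd2 (a i) r := by linarith [Real.exp_pos (a i * q)]
      exact_mod_cast (by linarith : (dd2 (a i) r : ℝ) < dd2 (a j) r)
    have e5 : cI l (PI T (a i * q) (q / K)) (2 * Real.pi * dd2 (a i) r / Real.log T -
        2 * Real.pi * dd2 (a j) r / Real.log T) =
        cI l (PI T (a i * q) (q / K)) (2 * Real.pi * ((dd2 (a j) r - dd2 (a i) r : ℕ) : ℝ) / Real.log T) := by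
      unfold cI
      congr 1
      refine Finset.sum_congr rfl fun p _ => ?_
      rw [← Real.cos_neg]
      congr 2
      push_cast [hdd.le]
      ring
    rw [e5]
    have b1 := abs_le.1 (c3 i (dd2 (a j) r - dd2 (a i) r) (by omega) (by omega) (by
      push_cast [hdd.le]
      exact hs))
    have b2 := abs_le.1 (c3 i (dd2 (a i) r) i1 i2 i3)
    have b3 := abs_le.1 (c3 i (dd2 (a j) r) j1 j2 (by
      refine hs.trans ?_
      have : (0 : ℝ) ≤ dd2 (a i) r := Nat.cast_nonneg _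
      linarith))
    have b4 := abs_le.1 (c5 i)
    have e6 : a i / (2 * Real.pi ^ 2) * q = a i * q / (2 * Real.pi ^ 2) := by ring
    rw [e6, abs_le]
    constructor <;> linarith [b1.1, b1.2, b2.1, b2.2, b3.1, b3.2, b4.1, b4.2]
  intro i j
  rcases lt_trichotomy (a i) (a j) with h | h | h
  · have hne : i ≠ j := fun h' => by rw [h'] at h; exact lt_irrefl _ h
    have := hord i j h
    unfold SS2
    rw [min_eq_left h.le, if_neg hne, add_zero]
    exact this
  · have hij : i = j := hinj h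
    subst hij
    unfold SS2
    rw [min_self, if_pos rfl, cc_eq l subset_rfl (hPr i), sub_self, cI_zero]
    obtain ⟨i1, i2, i3⟩ := hs1 i
    have b2 := abs_le.1 (c3 i (dd2 (a i) r) i1 i2 i3)
    have b4 := abs_le.1 (c5 i)
    have e6 : (a i + a i) / (2 * Real.pi ^ 2) * q = 2 * (a i * q / (2 * Real.pi ^ 2)) := by ring
    rw [e6, abs_le]
    constructor <;> linarith [b2.1, b2.2, b4.1, b4.2]
  · have hne : i ≠ j := fun h' => by rw [h'] at h; exact lt_irrefl _ h
    have := hord j i h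
    unfold SS2
    rw [min_eq_right h.le, if_neg hne, add_zero, cc_symm]
    exact this

end

end Pool.Agent.U403.Joint
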