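import Pool.Agent.U403.Joint.J1
import Pool.Agent.U403.Joint.J2

/-! # Joint large deviations: the Laplace transforms -/

set_option autoImplicit false

open Filter Topology MeasureTheory Set
open Pool.Agent.Y743.CL
open Pool.Agent.R320.JL
open Pool.Agent.U403.Max
open Pool.Agent.U403.Ldp

namespace Pool.Agent.U403.Joint

noncomputable section

/-- numerical conditions -/
lemma numJ (K : ℕ) (hK : 3 ≤ K) (a C2 w : ℝ) (ha : 0 ≤ a) (hC2 : 0 ≤ C2) (hw : 0 ≤ w) (B : ℕ) (hB : 2 * a ^ 2 + 4 ≤ B) :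
    ∀ᶠ q : ℝ in atTop, ∀ M : ℕ, M = ⌊Real.exp (q / K) / 8⌋₊ → ∀ v : ℝ, 0 ≤ v → v ≤ a ^ 2 * (q / Real.pi ^ 2 + C2) →
      ∀ P : ℝ, 0 ≤ P → P ≤ w * (17 * (((B * K).factorial : ℝ) * (4 * (q / Real.pi ^ 2 + C2)) ^ (B * K) /
        Real.exp (q / (2 * K)) ^ (2 * (B * K)))) →
      Real.exp (Real.exp 1 * (a * Real.exp (q / (2 * K)))) / Real.exp 1 ^ (2 * M + 1) +
        Real.exp (Real.exp 1 * (v / 2)) / Real.exp 1 ^ (M + 1) + 3 * (1 / 100) +
        2 * (2 * M + 1) * Real.exp v * Real.sqrt P ≤ 1 / 10 ∧ P ≤ Real.exp (-(a ^ 2 * q)) := by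
  have hK0 : 0 < K := by omega
  have hKr : (0 : ℝ) < K := by exact_mod_cast hK0
  have hpi3 := Real.pi_gt_three
  have q1 := (y_top hK0).eventually (ev_quad (Real.exp 1 * a) 0 (show (0 : ℝ) < 1 / 100 by norm_num))
  have q2 := (y_top hK0).eventually (ev_quad (Real.exp 1 * a ^ 2 * K) (Real.exp 1 * a ^ 2 * C2 / 2)
    (show (0 : ℝ) < 1 / 100 by norm_num))
  have q3 := ev_pow 2 C2 (by norm_num) (B * K) (Real.exp (2 * (a ^ 2 * C2)) * (w * 17 * ((B * K).factorial : ℝ)) * 4 ^ (B * K))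
    (show (0 : ℝ) < (1 / 1000) ^ 2 by norm_num)
  filter_upwards [q1, q2, q3, eventually_ge_atTop 1] with q q1 q2 q3 hq M hM v hv0 hv P hP0 hP
  have hq0 : 0 < q := by linarith
  obtain ⟨x, hx⟩ : ∃ x : ℝ, x = Real.exp (q / (2 * K)) := ⟨_, rfl⟩
  have hx0 : 0 < x := by rw [hx]; exact Real.exp_pos _
  have hx2 : x ^ 2 = Real.exp (q / K) := by
    rw [hx, ← Real.exp_nat_mul]
    congr 1
    push_cast
    field_simp
  rw [← hx] at q1 q2 hP ⊢
  rw [← hx2] at hM
  have hM1 : x ^ 2 / 8 ≤ (M : ℝ) + 1 := by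
    have := Nat.lt_floor_add_one (x ^ 2 / 8)
    rw [← hM] at this
    linarith
  have hM2 : (M : ℝ) ≤ x ^ 2 / 8 := by rw [hM]; exact Nat.floor_le (by positivity)
  have hM0 : (0 : ℝ) ≤ M := Nat.cast_nonneg _
  have he : ∀ n : ℕ, Real.exp 1 ^ n = Real.exp n := fun n => by rw [← Real.exp_nat_mul, mul_one]
  have hqx : q ≤ 2 * K * x := by
    have h1 : q / (2 * K) + 1 ≤ x := by rw [hx]; exact Real.add_one_le_exp _
    have h2 : q / (2 * K) ≤ x := by linarith
    rw [div_le_iff₀ (by positivity)] at h2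
    linarith
  have hpi1 : q / Real.pi ^ 2 ≤ q := by
    rw [div_le_iff₀ (by positivity)]
    have : 1 ≤ Real.pi ^ 2 := by nlinarith
    nlinarith
  have t1 : Real.exp (Real.exp 1 * (a * x)) / Real.exp 1 ^ (2 * M + 1) ≤ 1 / 100 := by
    refine le_trans ?_ q1
    rw [he, ← Real.exp_sub]
    apply Real.exp_le_exp.2
    push_cast
    linarith
  have hv' : v ≤ a ^ 2 * (q + C2) := hv.trans (by gcongr)
  have t2 : Real.exp (Real.exp 1 * (v / 2)) / Real.exp 1 ^ (M + 1) ≤ 1 / 100 := by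
    refine le_trans ?_ q2
    rw [he, ← Real.exp_sub]
    apply Real.exp_le_exp.2
    push_cast
    have h1 : v ≤ a ^ 2 * (2 * K * x + C2) := hv'.trans (by gcongr)
    have h2 := mul_le_mul_of_nonneg_left h1 (Real.exp_pos 1).le
    linarith
  have hP' : P ≤ (1 / 1000 * (Real.exp (-q) * Real.exp (-(a ^ 2 * (q + C2))))) ^ 2 := by
    refine hP.trans ?_
    have h1 : x ^ (2 * (B * K)) = Real.exp (B * q) := by
      rw [hx, ← Real.exp_nat_mul]
      congr 1
      push_cast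
      field_simp
    have e0 : (1 / 1000 * (Real.exp (-q) * Real.exp (-(a ^ 2 * (q + C2))))) ^ 2 =
        (1 / 1000) ^ 2 * Real.exp (-(2 * q) - 2 * (a ^ 2 * (q + C2))) := by
      rw [mul_pow, ← Real.exp_add, ← Real.exp_nat_mul]
      congr 2
      push_cast
      ring
    rw [h1, e0, ← mul_div_assoc, ← mul_div_assoc, div_le_iff₀ (Real.exp_pos _), mul_assoc ((1 / 1000 : ℝ) ^ 2), ← Real.exp_add]
    have h2 : (q / Real.pi ^ 2 + C2) ^ (B * K) ≤ (q + C2) ^ (B * K) := by gcongr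
    calc w * (17 * (((B * K).factorial : ℝ) * (4 * (q / Real.pi ^ 2 + C2)) ^ (B * K))) =
        w * 17 * ((B * K).factorial : ℝ) * 4 ^ (B * K) * (q / Real.pi ^ 2 + C2) ^ (B * K) := by rw [mul_pow]; ring
      _ ≤ w * 17 * ((B * K).factorial : ℝ) * 4 ^ (B * K) * (q + C2) ^ (B * K) := by gcongr
      _ = (Real.exp (2 * (a ^ 2 * C2)) * (w * 17 * ((B * K).factorial : ℝ)) * 4 ^ (B * K) *
          ((q + C2) ^ (B * K) * Real.exp (-(2 * q)))) * Real.exp (2 * q - 2 * (a ^ 2 * C2)) := by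
          have e5 : Real.exp (2 * q - 2 * (a ^ 2 * C2)) = Real.exp (2 * q) * Real.exp (-(2 * (a ^ 2 * C2))) := by
            rw [← Real.exp_add]; congr 1
          have e6 : Real.exp (2 * (a ^ 2 * C2)) * Real.exp (-(2 * (a ^ 2 * C2))) = 1 := by rw [← Real.exp_add]; simp
          have e7 : Real.exp (-(2 * q)) * Real.exp (2 * q) = 1 := by rw [← Real.exp_add]; simp
          rw [e5]
          linear_combination (-(w * 17 * ((B * K).factorial : ℝ) * 4 ^ (B * K) * (q + C2) ^ (B * K))) * e6 -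
            (w * 17 * ((B * K).factorial : ℝ) * 4 ^ (B * K) * (q + C2) ^ (B * K)) *
              (Real.exp (2 * (a ^ 2 * C2)) * Real.exp (-(2 * (a ^ 2 * C2)))) * e7
      _ ≤ (1 / 1000) ^ 2 * Real.exp (2 * q - 2 * (a ^ 2 * C2)) := by
          apply mul_le_mul_of_nonneg_right q3 (Real.exp_pos _).le
      _ ≤ _ := by
          apply mul_le_mul_of_nonneg_left _ (by norm_num)
          apply Real.exp_le_exp.2
          have h3 := mul_le_mul_of_nonneg_right hB hq0.le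
          push_cast
          linarith
  have t4 : 2 * (2 * M + 1) * Real.exp v * Real.sqrt P ≤ 1 / 100 := by
    have hx2q : x ^ 2 ≤ Real.exp q := by
      rw [hx2]
      apply Real.exp_le_exp.2
      rw [div_le_iff₀ hKr]
      have : (1 : ℝ) ≤ K := by exact_mod_cast hK0
      nlinarith
    have hMq : 2 * (2 * (M : ℝ) + 1) ≤ 3 * Real.exp q := by
      have : 1 ≤ Real.exp q := Real.one_le_exp hq0.le
      linarith
    have hsq : Real.sqrt P ≤ 1 / 1000 * (Real.exp (-q) * Real.exp (-(a ^ 2 * (q + C2)))) := by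
      refine (Real.sqrt_le_sqrt hP').trans (le_of_eq ?_)
      rw [Real.sqrt_sq (by positivity)]
    calc 2 * (2 * M + 1) * Real.exp v * Real.sqrt P ≤ 3 * Real.exp q * Real.exp (a ^ 2 * (q + C2)) *
        (1 / 1000 * (Real.exp (-q) * Real.exp (-(a ^ 2 * (q + C2))))) := by
          have h4 : Real.exp v ≤ Real.exp (a ^ 2 * (q + C2)) := Real.exp_le_exp.2 hv'
          gcongr
      _ = 3 / 1000 := by
          have e6 : Real.exp q * Real.exp (-q) = 1 := by rw [← Real.exp_add]; simp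
          have e7 : Real.exp (a ^ 2 * (q + C2)) * Real.exp (-(a ^ 2 * (q + C2))) = 1 := by rw [← Real.exp_add]; simp
          linear_combination (3 / 1000) * e6 * (Real.exp (a ^ 2 * (q + C2)) * Real.exp (-(a ^ 2 * (q + C2)))) +
            (3 / 1000) * e7
      _ ≤ 1 / 100 := by norm_num
  refine ⟨by linarith, hP'.trans ?_⟩
  rw [mul_pow, ← Real.exp_add, ← Real.exp_nat_mul]
  have h1 : Real.exp (((2 : ℕ) : ℝ) * (-q + -(a ^ 2 * (q + C2)))) ≤ Real.exp (-(a ^ 2 * q)) := by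
    apply Real.exp_le_exp.2
    push_cast
    have h2 : 0 ≤ a ^ 2 * C2 := by positivity
    have h3 : 0 ≤ a ^ 2 * q := by positivity
    linarith
  have h4 : 0 < Real.exp (((2 : ℕ) : ℝ) * (-q + -(a ^ 2 * (q + C2)))) := Real.exp_pos _
  have h5 : ((1 : ℝ) / 1000) ^ 2 ≤ 1 := by norm_num
  have h6 := mul_le_mul_of_nonneg_right h5 h4.le
  rw [one_mul] at h6
  exact h6.trans h1

/-- the quadratic form -/
def Qf {k : ℕ} (a θ : Fin k → ℝ) : ℝ := ∑ i, ∑ j, θ i * θ j * SS2 a i j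

/-- **the Laplace transforms of the linear forms** -/
theorem lapJ {k : ℕ} (a : Fin k → ℝ) (ha : ∀ i, 0 < a i) (ha1 : ∀ i, a i ≤ 1) (hinj : Function.Injective a)
    (R η : ℝ) (hR : 1 ≤ R) (hη : 0 < η) : ∀ κ : ℝ, 0 < κ → ∃ K₀ : ℕ, ∀ K : ℕ, K₀ ≤ K → 3 ≤ K →
    ∀ᶠ r : ℕ in atTop, ∀ᶠ T : ℝ in atTop, ∃ (A : Set ℝ) (V : ℝ), MeasurableSet A ∧
      (PT T).real Aᶜ ≤ Real.exp (-(R ^ 2 * Real.log r)) ∧
      (∀ i, ∀ t ∈ A, |Ga κ K (a i) r (dd2 (a i) r) T t| ≤ V) ∧
      ∀ θ : Fin k → ℝ, ∑ i, |θ i| ≤ R →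
        Real.exp ((Qf a θ / 2 - η) * Real.log r) ≤
          ∫ t in A, Real.exp (∑ i, θ i * Ga κ K (a i) r (dd2 (a i) r) T t) ∂(PT T) ∧
        ∫ t in A, Real.exp (∑ i, θ i * Ga κ K (a i) r (dd2 (a i) r) T t) ∂(PT T) ≤
          Real.exp ((Qf a θ / 2 + η) * Real.log r) := by
  intro κ hκ
  obtain ⟨C2, hC2, hcov⟩ := covs a ha ha1 hinj
  obtain ⟨K₁, hcov⟩ := hcov κ hκ
  have hpi3 := Real.pi_gt_three
  have hpi4 := Real.pi_lt_four
  have hpi := Real.pi_pos
  have hpi2 : 0 < Real.pi ^ 2 := by positivity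
  obtain ⟨b, hb⟩ : ∃ b : ℝ, b = 2 * R := ⟨_, rfl⟩
  have hb0 : 0 ≤ b := by rw [hb]; linarith
  obtain ⟨B, hB⟩ : ∃ B : ℕ, B = ⌈2 * b ^ 2 + 4⌉₊ := ⟨_, rfl⟩
  have hB1 : 2 * b ^ 2 + 4 ≤ B := by rw [hB]; exact Nat.le_ceil _
  refine ⟨K₁ + ⌈2 * R ^ 2 / η⌉₊ + 16, fun K hK0 hK3 => ?_⟩
  have hKpos : 0 < K := by omega
  have hKr : (0 : ℝ) < K := by exact_mod_cast hKpos
  have hK16 : (16 : ℝ) ≤ K := by exact_mod_cast (by omega : 16 ≤ K)
  have hKη : R ^ 2 / K ≤ η / 2 := by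
    have h1 : 2 * R ^ 2 / η ≤ K := (Nat.le_ceil _).trans (by exact_mod_cast (by omega : ⌈2 * R ^ 2 / η⌉₊ ≤ K))
    rw [div_le_iff₀ hη] at h1
    rw [div_le_iff₀ hKr]
    linarith
  filter_upwards [hcov K (by omega) hK3, logr_top.eventually (numJ K hK3 b C2 k hb0 hC2 (Nat.cast_nonneg _) B hB1),
    logr_top.eventually (ev_small hKpos (4 * (B * K : ℝ)) 0 0 (show (0 : ℝ) < 1 by norm_num)),
    logr_top.eventually_ge_atTop (4 * R ^ 2 * C2 / η), logr_top.eventually_ge_atTop 1,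
    logr_top.eventually_ge_atTop (2 / η)] with r hv hn he hq1 hq2 hq3
  obtain ⟨q, hq⟩ : ∃ q : ℝ, q = Real.log r := ⟨_, rfl⟩
  unfold Ga
  rw [← hq] at hv hn he hq1 hq2 hq3 ⊢
  have hq0 : 0 < q := by linarith
  simp only [pow_zero, one_mul] at he
  rw [div_le_iff₀ hη] at hq1 hq3
  obtain ⟨M, hM⟩ : ∃ M : ℕ, M = ⌊Real.exp (q / K) / 8⌋₊ := ⟨_, rfl⟩
  have hn := hn M hM
  have hb2 : 0 ≤ b ^ 2 * (q / Real.pi ^ 2 + C2) := by positivity
  obtain ⟨D, hD1, hD⟩ := mom_near (4 * M) (2 * (b ^ 2 * (q / Real.pi ^ 2 + C2))) (1 / 100) (by positivity) (by norm_num)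
  have hD0 : 0 < D := by linarith
  filter_upwards [hv (1 / (4 * ((R ^ 2 + 1) * D))) (by positivity), eventually_ge_atTop 1, eventually_ge_atTop D]
    with T hT hT1 hTD
  have hT0 : 0 < T := by linarith
  have hPT := PT_univ hT0
  obtain ⟨hbe, hVd⟩ := hT
  obtain ⟨l, hl⟩ : ∃ l : ℝ, l = Real.log T / (κ * q) := ⟨_, rfl⟩
  obtain ⟨I, hI⟩ : ∃ I : Fin k → Finset ℕ, I = fun i => PI T (a i * q) (q / K) := ⟨_, rfl⟩
  obtain ⟨h, hh⟩ : ∃ h : Fin k → ℝ, h = fun i => 2 * Real.pi * dd2 (a i) r / Real.log T := ⟨_, rfl⟩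
  have hIi : ∀ i, PI T (a i * q) (q / K) = I i := fun i => by rw [hI]
  have hhi : ∀ i, 2 * Real.pi * dd2 (a i) r / Real.log T = h i := fun i => by rw [hh]
  obtain ⟨X, hX⟩ : ∃ X : ℕ, X = XK (Real.exp (-(q / K))) T := ⟨_, rfl⟩
  rw [← hl, ← hX] at hVd
  rw [← hl] at hbe ⊢
  simp only [hIi, hhi] at hVd hbe ⊢
  have hX1 : 1 ≤ X := by
    rw [hX]
    unfold XK
    apply Nat.le_floor
    rw [Nat.cast_one]
    exact Real.one_le_rpow hT1 (Real.exp_pos _).le
  have hIX : ∀ i, I i ⊆ Pr X := fun i => by rw [hI, hX]; exact PI_sub hT1 le_rfl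
  obtain ⟨G, hG⟩ : ∃ G : Fin k → ℝ → ℝ, G = fun i t => fld l (I i) (t + h i) - fld l (I i) t := ⟨_, rfl⟩
  have hGe : ∀ i t, fld l (I i) (t + h i) - fld l (I i) t = G i t := fun i t => by rw [hG]
  have hGc : ∀ i, Continuous (G i) := fun i => by
    rw [hG]
    exact ((fld_cont _ _).comp (by fun_prop)).sub (fld_cont _ _)
  simp only [hGe]
  -- covariances
  obtain ⟨c, hc⟩ : ∃ c : Fin k → Fin k → ℝ, c = fun i j => cc l (I i) (I j) (h i) (h j) X := ⟨_, rfl⟩
  have hci : ∀ i j, cc l (I i) (I j) (h i) (h j) X = c i j := fun i j => by rw [hc]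
  simp only [hci] at hVd
  have hSS : ∀ i j, SS2 a i j ≤ 1 / Real.pi ^ 2 := by
    intro i j
    unfold SS2
    rw [div_le_div_iff₀ (by positivity) (by positivity)]
    have h1 : min (a i) (a j) ≤ 1 := (min_le_left _ _).trans (ha1 i)
    have h2 : (if i = j then a i else 0) ≤ 1 := by
      split_ifs
      · exact ha1 i
      · norm_num
    nlinarith
  have hqK : q / K ≤ q / Real.pi ^ 2 := by
    apply div_le_div_of_nonneg_left hq0.le hpi2
    nlinarith
  have hcu : ∀ i j, c i j ≤ 2 * (q / Real.pi ^ 2 + C2) := by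
    intro i j
    have h1 := (abs_le.1 (hVd i j)).2
    have h2 := mul_le_mul_of_nonneg_right (hSS i j) hq0.le
    have h3 : 1 / Real.pi ^ 2 * q = q / Real.pi ^ 2 := by ring
    linarith
  have hVSi : ∀ i, VS (nz (zd l (I i) (h i))) X ≤ 4 * (q / Real.pi ^ 2 + C2) := by
    intro i
    have h1 := hcu i i
    rw [← hci, cc_eq l subset_rfl (hIX i), sub_self, cI_zero] at h1
    rw [zd_VS l (hIX i)]
    linarith
  -- the bounded part
  obtain ⟨A, hA⟩ : ∃ A : Set ℝ, A = ⋂ i, {t | |G i t| ≤ Real.exp (q / (2 * K))} := ⟨_, rfl⟩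
  have hAm : MeasurableSet A := by
    rw [hA]
    exact MeasurableSet.iInter fun i => measurableSet_le (hGc i).abs.measurable measurable_const
  have hAV : ∀ i, ∀ t ∈ A, |G i t| ≤ Real.exp (q / (2 * K)) := by
    intro i t ht
    rw [hA, Set.mem_iInter] at ht
    exact ht i
  have hAc : (PT T).real Aᶜ ≤ k * (17 * (((B * K).factorial : ℝ) * (4 * (q / Real.pi ^ 2 + C2)) ^ (B * K) /
        Real.exp (q / (2 * K)) ^ (2 * (B * K)))) := by
    have hXT : ((X ^ (B * K + B * K) : ℕ) : ℝ) ≤ Real.sqrt T := by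
      rw [hX]
      apply XK_pow hT1
      push_cast
      linarith
    have h1 : Aᶜ = ⋃ i ∈ (Finset.univ : Finset (Fin k)), {t | |G i t| ≤ Real.exp (q / (2 * K))}ᶜ := by
      rw [hA, Set.compl_iInter]
      simp
    rw [h1]
    refine (measureReal_biUnion_finset_le _ _).trans ?_
    have h2 : ∀ i ∈ (Finset.univ : Finset (Fin k)), (PT T).real {t | |G i t| ≤ Real.exp (q / (2 * K))}ᶜ ≤
        17 * (((B * K).factorial : ℝ) * (4 * (q / Real.pi ^ 2 + C2)) ^ (B * K) /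
        Real.exp (q / (2 * K)) ^ (2 * (B * K))) := by
      intro i _
      refine le_trans (measureReal_mono ?_ (measure_ne_top _ _)) (pp_tail (zd l (I i) (h i)) X hX1 T
        (4 * (q / Real.pi ^ 2 + C2)) (Real.exp (q / (2 * K))) hT1 (B * K) hXT (hVSi i) (Real.exp_pos _))
      intro t ht
      rw [Set.mem_compl_iff, Set.mem_ofPred_eq, not_le] at ht
      rw [Set.mem_ofPred_eq]
      refine ht.le.trans ?_
      rw [← hGe, ← zd_re l (hIX i) (h i) t]
      exact Complex.abs_re_le_norm _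
    refine (Finset.sum_le_sum h2).trans ?_
    rw [Finset.sum_const, Finset.card_univ, Fintype.card_fin, nsmul_eq_mul]
  have hXM : ((X ^ (4 * M) : ℕ) : ℝ) ≤ Real.sqrt T := by
    rw [hX]
    apply XK_pow hT1
    push_cast
    have h1 : (M : ℝ) ≤ Real.exp (q / K) / 8 := by rw [hM]; exact Nat.floor_le (by positivity)
    have h2 : Real.exp (-(q / K)) * Real.exp (q / K) = 1 := by rw [← Real.exp_add]; simp
    have h3 := mul_le_mul_of_nonneg_left h1 (Real.exp_pos (-(q / K))).le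
    nlinarith
  have hAc2 : (PT T).real Aᶜ ≤ Real.exp (-(R ^ 2 * q)) := by
    have h1 := (hn 0 le_rfl hb2 _ measureReal_nonneg hAc).2
    refine h1.trans (Real.exp_le_exp.2 ?_)
    have : b ^ 2 * q = 4 * (R ^ 2 * q) := by rw [hb]; ring
    have h0 : 0 ≤ R ^ 2 * q := by positivity
    linarith
  refine ⟨A, Real.exp (q / (2 * K)), hAm, hAc2, hAV, fun θ hθ => ?_⟩
  obtain ⟨v, hv⟩ : ∃ v : ℝ, v = ∑ i, ∑ j, θ i * θ j * c i j := ⟨_, rfl⟩
  have hθ0 : 0 ≤ ∑ i, |θ i| := Finset.sum_nonneg fun i _ => abs_nonneg _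
  have hR2 : (∑ i, |θ i|) ^ 2 ≤ R ^ 2 := pow_le_pow_left₀ hθ0 hθ 2
  have hdbl : ∀ (f : Fin k → Fin k → ℝ) (y : ℝ), 0 ≤ y → (∀ i j, |f i j| ≤ y) →
      |∑ i, ∑ j, θ i * θ j * f i j| ≤ R ^ 2 * y := by
    intro f y hy hf
    calc |∑ i, ∑ j, θ i * θ j * f i j| ≤ ∑ i, ∑ j, |θ i| * |θ j| * y := by
          refine (Finset.abs_sum_le_sum_abs _ _).trans (Finset.sum_le_sum fun i _ => ?_)
          refine (Finset.abs_sum_le_sum_abs _ _).trans (Finset.sum_le_sum fun j _ => ?_)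
          rw [abs_mul, abs_mul]
          exact mul_le_mul_of_nonneg_left (hf i j) (by positivity)
      _ = (∑ i, |θ i|) ^ 2 * y := by
          rw [sq, Finset.sum_mul_sum, Finset.sum_mul]
          refine Finset.sum_congr rfl fun i _ => ?_
          rw [Finset.sum_mul]
      _ ≤ R ^ 2 * y := mul_le_mul_of_nonneg_right hR2 hy
  have hvQ : |v - Qf a θ * q| ≤ 3 / 4 * η * q := by
    have e : v - Qf a θ * q = ∑ i, ∑ j, θ i * θ j * (c i j - SS2 a i j * q) := by
      rw [hv]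
      unfold Qf
      rw [Finset.sum_mul, ← Finset.sum_sub_distrib]
      refine Finset.sum_congr rfl fun i _ => ?_
      rw [Finset.sum_mul, ← Finset.sum_sub_distrib]
      refine Finset.sum_congr rfl fun j _ => ?_
      ring
    rw [e]
    refine (hdbl _ (q / K + C2) (by positivity) hVd).trans ?_
    have h1 : R ^ 2 * (q / K + C2) = R ^ 2 / K * q + R ^ 2 * C2 := by ring
    rw [h1]
    have h2 := mul_le_mul_of_nonneg_right hKη hq0.le
    linarith
  have hvu : v ≤ b ^ 2 * (q / Real.pi ^ 2 + C2) := by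
    have h1 : |Qf a θ| ≤ R ^ 2 * (1 / Real.pi ^ 2) := by
      unfold Qf
      refine hdbl _ _ (by positivity) fun i j => ?_
      rw [abs_of_nonneg]
      · exact hSS i j
      · unfold SS2
        have h1 : 0 < min (a i) (a j) := lt_min (ha i) (ha j)
        have h2 : 0 ≤ (if i = j then a i else 0) := by
          split_ifs
          · exact (ha i).le
          · norm_num
        positivity
    have e : v = Qf a θ * q + ∑ i, ∑ j, θ i * θ j * (c i j - SS2 a i j * q) := by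
      rw [hv]
      unfold Qf
      rw [Finset.sum_mul, ← Finset.sum_add_distrib]
      refine Finset.sum_congr rfl fun i _ => ?_
      rw [Finset.sum_mul, ← Finset.sum_add_distrib]
      refine Finset.sum_congr rfl fun j _ => ?_
      ring
    have h2 := (abs_le.1 (hdbl _ (q / K + C2) (by positivity) hVd)).2
    have h3 := mul_le_mul_of_nonneg_right (abs_le.1 h1).2 hq0.le
    have h4 : b ^ 2 * (q / Real.pi ^ 2 + C2) = 4 * (R ^ 2 * (q / Real.pi ^ 2)) + 4 * (R ^ 2 * C2) := by rw [hb]; ring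
    have h5 : R ^ 2 * (1 / Real.pi ^ 2) * q = R ^ 2 * (q / Real.pi ^ 2) := by ring
    have h6 : R ^ 2 * (q / K + C2) ≤ R ^ 2 * (q / Real.pi ^ 2) + R ^ 2 * C2 := by
      rw [mul_add]
      have := mul_le_mul_of_nonneg_left hqK (sq_nonneg R)
      linarith
    have h7 : 0 ≤ R ^ 2 * (q / Real.pi ^ 2) := by positivity
    have h8 : 0 ≤ R ^ 2 * C2 := by positivity
    rw [e, h4]
    linarith
  have hVS : VS (nz (fun p => ∑ i, (θ i : ℂ) * zd l (I i) (h i) p)) X = 2 * v := by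
    rw [VS_comb, hv]
    simp only [hci]
  have hv0 : 0 ≤ v := by
    have := VS_nonneg (nz (fun p => ∑ i, (θ i : ℂ) * zd l (I i) (h i) p)) X
    linarith
  have hPP : ∀ t, (PP (fun p => ∑ i, (θ i : ℂ) * zd l (I i) (h i) p) X t).re = ∑ i, θ i * G i t := by
    intro t
    have e1 : PP (fun p => ∑ i, (θ i : ℂ) * zd l (I i) (h i) p) X t = ∑ i, (θ i : ℂ) * PP (zd l (I i) (h i)) X t := by
      unfold PP
      simp only [Finset.sum_mul, Finset.mul_sum]
      rw [Finset.sum_comm]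
      refine Finset.sum_congr rfl fun i _ => Finset.sum_congr rfl fun p _ => ?_
      ring
    rw [e1, Complex.re_sum]
    refine Finset.sum_congr rfl fun i _ => ?_
    rw [Complex.re_ofReal_mul, zd_re l (hIX i), hGe]
  have hYc : Continuous fun t => ∑ i, θ i * G i t := continuous_finsetSum _ fun i _ => (hGc i).const_mul _
  have hbd : ∀ p, ‖∑ i, (θ i : ℂ) * zd l (I i) (h i) p‖ ^ 2 ≤ 1 / D := by
    intro p
    obtain ⟨s, hs⟩ : ∃ s : ℝ, s = Real.sqrt (4 * (1 / (4 * ((R ^ 2 + 1) * D)))) := ⟨_, rfl⟩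
    have hs2 : s ^ 2 = 4 * (1 / (4 * ((R ^ 2 + 1) * D))) := by rw [hs]; exact Real.sq_sqrt (by positivity)
    have hs0 : 0 ≤ s := by rw [hs]; exact Real.sqrt_nonneg _
    have h1 : ∀ i, ‖zd l (I i) (h i) p‖ ≤ s := by
      intro i
      have := zd_bd l (hIX i) (h i) (by positivity) (hbe i) p
      rw [← hs2] at this
      exact (pow_le_pow_iff_left₀ (norm_nonneg _) hs0 two_ne_zero).1 this
    have h2 : ‖∑ i, (θ i : ℂ) * zd l (I i) (h i) p‖ ≤ R * s := by
      refine (norm_sum_le _ _).trans ?_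
      calc ∑ i, ‖(θ i : ℂ) * zd l (I i) (h i) p‖ ≤ ∑ i, |θ i| * s := by
            refine Finset.sum_le_sum fun i _ => ?_
            rw [norm_mul, Complex.norm_real, Real.norm_eq_abs]
            exact mul_le_mul_of_nonneg_left (h1 i) (abs_nonneg _)
        _ = (∑ i, |θ i|) * s := by rw [Finset.sum_mul]
        _ ≤ R * s := mul_le_mul_of_nonneg_right hθ hs0
    calc ‖∑ i, (θ i : ℂ) * zd l (I i) (h i) p‖ ^ 2 ≤ (R * s) ^ 2 := pow_le_pow_left₀ (norm_nonneg _) h2 2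
      _ = R ^ 2 / (R ^ 2 + 1) * (1 / D) := by rw [mul_pow, hs2]; field_simp
      _ ≤ 1 * (1 / D) := by
          apply mul_le_mul_of_nonneg_right _ (by positivity)
          rw [div_le_one (by positivity)]
          linarith
      _ = 1 / D := one_mul _
  have hmom : ∀ m ≤ 4 * M, |∫ t, (∑ i, θ i * G i t) ^ m ∂(PT T) - Gm v m| ≤ 1 / 100 := by
    intro m hm
    have h1 := hD (fun p => ∑ i, (θ i : ℂ) * zd l (I i) (h i) p) X T hTD hX1 hbd hXM (by rw [hVS]; linarith) m hm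
    rw [hVS] at h1
    have e1 : 2 * v / 2 = v := by ring
    rw [e1] at h1
    simp only [hPP] at h1
    exact h1
  have h1 := lap (P := PT T) (Y := fun t => ∑ i, θ i * G i t) (A := A) (V1 := b * Real.exp (q / (2 * K))) (v := v)
      (δ := 1 / 100) (s := Real.exp 1) (M := M) hYc.measurable hAm (by
        intro t ht
        calc |∑ i, θ i * G i t| ≤ ∑ i, |θ i| * Real.exp (q / (2 * K)) := by
              refine (Finset.abs_sum_le_sum_abs _ _).trans (Finset.sum_le_sum fun i _ => ?_)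
              rw [abs_mul]
              exact mul_le_mul_of_nonneg_left (hAV i t ht) (abs_nonneg _)
          _ = (∑ i, |θ i|) * Real.exp (q / (2 * K)) := by rw [Finset.sum_mul]
          _ ≤ b * Real.exp (q / (2 * K)) := by
              apply mul_le_mul_of_nonneg_right _ (Real.exp_pos _).le
              rw [hb]
              linarith) hv0 (by norm_num) (by norm_num) (Real.one_le_exp zero_le_one)
      (fun m _ => PT_integrable hT0 (hYc.pow m)) hmom
  have h2 := h1.trans (hn _ hv0 hvu _ measureReal_nonneg hAc).1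
  have h3 := abs_le.1 h2
  have h4 : 1 ≤ Real.exp (v / 2) := Real.one_le_exp (by positivity)
  have h5 := abs_le.1 hvQ
  have hE : 2 ≤ Real.exp (η / 2 * q) := by
    have := Real.add_one_le_exp (η / 2 * q)
    linarith
  constructor
  · have h6 : Real.exp ((Qf a θ / 2 - η) * q) ≤ Real.exp (v / 2) * Real.exp (-(η / 2 * q)) := by
      rw [← Real.exp_add]
      apply Real.exp_le_exp.2
      have : 0 ≤ η * q := by positivity
      linarith [h5.1]
    have h7 : Real.exp (-(η / 2 * q)) ≤ 1 / 2 := by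
      rw [Real.exp_neg, ← one_div]
      exact one_div_le_one_div_of_le (by norm_num) hE
    have h8 := mul_le_mul_of_nonneg_left h7 (by linarith : 0 ≤ Real.exp (v / 2))
    linarith [h3.1]
  · have h6 : Real.exp (v / 2) * Real.exp (η / 2 * q) ≤ Real.exp ((Qf a θ / 2 + η) * q) := by
      rw [← Real.exp_add]
      apply Real.exp_le_exp.2
      have : 0 ≤ η * q := by positivity
      linarith [h5.2]
    have h8 := mul_le_mul_of_nonneg_left hE (by linarith : 0 ≤ Real.exp (v / 2))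
    linarith [h3.2]

end

end Pool.Agent.U403.Joint
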