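import Pool.Agent.U403.Joint.J3

/-! # Joint large deviations: Chebyshev and Cramér in several variables -/

set_option autoImplicit false

open Filter Topology MeasureTheory Set
open Pool.Agent.U403.Max
open Pool.Agent.U403.Ldp

namespace Pool.Agent.U403.Joint

noncomputable section

variable {P : Measure ℝ} [IsProbabilityMeasure P]

lemma exp_intJ {Y : ℝ → ℝ} {A : Set ℝ} {V : ℝ} (hY : Measurable Y) (hA : MeasurableSet A)
    (hV : ∀ t ∈ A, |Y t| ≤ V) : IntegrableOn (fun t => Real.exp (Y t)) A P := by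
  refine bdd_int hA (by fun_prop) (M := Real.exp V) fun ω hω => ?_
  rw [abs_of_pos (Real.exp_pos _)]
  exact Real.exp_le_exp.2 ((le_abs_self _).trans (hV ω hω))

/-- Chebyshev's inequality with a weight -/
lemma cheb2 {Y Z : ℝ → ℝ} {A : Set ℝ} {V V' : ℝ} (hY : Measurable Y) (hZ : Measurable Z) (hA : MeasurableSet A)
    (hV : ∀ t ∈ A, |Y t| ≤ V) (hV' : ∀ t ∈ A, |Z t| ≤ V') (s : ℝ) :
    ∫ t in A ∩ {t | s ≤ Z t}, Real.exp (Y t) ∂P ≤ Real.exp (-s) * ∫ t in A, Real.exp (Y t + Z t) ∂P := by
  have hS : MeasurableSet {t | s ≤ Z t} := measurableSet_le measurable_const hZ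
  have h1 : IntegrableOn (fun t => Real.exp (Y t)) A P := exp_intJ hY hA hV
  have h2 : IntegrableOn (fun t => Real.exp (Y t + Z t)) A P := exp_intJ (V := V + V') (hY.add hZ) hA (fun t ht =>
    (abs_add_le _ _).trans (add_le_add (hV t ht) (hV' t ht)))
  rw [← integral_const_mul]
  calc ∫ t in A ∩ {t | s ≤ Z t}, Real.exp (Y t) ∂P ≤
      ∫ t in A ∩ {t | s ≤ Z t}, Real.exp (-s) * Real.exp (Y t + Z t) ∂P := by
        apply setIntegral_mono_on (h1.mono_set inter_subset_left) ((h2.mono_set inter_subset_left).const_mul _)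
          (hA.inter hS)
        intro t ht
        rw [← Real.exp_add]
        apply Real.exp_le_exp.2
        have : s ≤ Z t := ht.2
        linarith
    _ ≤ ∫ t in A, Real.exp (-s) * Real.exp (Y t + Z t) ∂P := by
        apply setIntegral_mono_set (h2.const_mul _)
        · exact Eventually.of_forall fun t => by positivity
        · exact inter_subset_left.eventuallyLE

/-- the upper bound for a half space -/
lemma upJ {Z : ℝ → ℝ} {A : Set ℝ} {V : ℝ} (hZ : Measurable Z) (hA : MeasurableSet A)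
    (hV : ∀ t ∈ A, |Z t| ≤ V) (s : ℝ) :
    P.real (A ∩ {t | s ≤ Z t}) ≤ Real.exp (-s) * ∫ t in A, Real.exp (Z t) ∂P := by
  have h1 := cheb2 (P := P) (Y := fun _ => 0) (Z := Z) (A := A) (V := 0) (V' := V) measurable_const hZ hA
    (fun _ _ => by simp) hV s
  simp only [Real.exp_zero, zero_add] at h1
  rwa [setIntegral_const, smul_eq_mul, mul_one] at h1

/-- the sign -/
def sg (b : Bool) : ℝ := if b then 1 else -1

lemma sg_or (b : Bool) : sg b = 1 ∨ sg b = -1 := by
  unfold sg
  cases b <;> simp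

/-- **Cramér's lower bound in several variables** -/
theorem lowJ {k : ℕ} {G : Fin k → ℝ → ℝ} (hG : ∀ i, Measurable (G i)) {A : Set ℝ} (hA : MeasurableSet A) {V : ℝ}
    (hV : ∀ i, ∀ t ∈ A, |G i t| ≤ V) (θ x : Fin k → ℝ) (δ q η Q : ℝ) (hδ : 0 < δ)
    (h0 : Real.exp ((Q / 2 - η) * q) ≤ ∫ t in A, Real.exp (∑ i, θ i * G i t) ∂P)
    (h1 : ∀ i, ∀ σ : ℝ, σ = 1 ∨ σ = -1 →
      ∫ t in A, Real.exp (∑ j, (θ j + if j = i then σ * δ else 0) * G j t) ∂P ≤
        Real.exp ((Q / 2 + σ * δ * x i + δ ^ 2 / 2 + η) * q))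
    (hk : 4 * (k : ℝ) ≤ Real.exp ((δ ^ 2 / 2 - 2 * η) * q)) :
    Real.exp ((Q / 2 - η - (∑ i, θ i * x i + δ * ∑ i, |θ i|)) * q) / 2 ≤
      P.real {t | ∀ i, |G i t - x i * q| ≤ δ * q} := by
  obtain ⟨Y, hY⟩ : ∃ Y : ℝ → ℝ, Y = fun t => ∑ i, θ i * G i t := ⟨_, rfl⟩
  have hYe : ∀ t, ∑ i, θ i * G i t = Y t := fun t => by rw [hY]
  simp only [hYe] at h0
  have hYm : Measurable Y := by
    rw [hY]
    exact Finset.measurable_sum _ fun i _ => (hG i).const_mul _
  have hYV : ∀ t ∈ A, |Y t| ≤ (∑ i, |θ i|) * V := by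
    intro t ht
    rw [← hYe, Finset.sum_mul]
    refine (Finset.abs_sum_le_sum_abs _ _).trans (Finset.sum_le_sum fun i _ => ?_)
    rw [abs_mul]
    exact mul_le_mul_of_nonneg_left (hV i t ht) (abs_nonneg _)
  obtain ⟨good, hgood⟩ : ∃ good : Set ℝ, good = {t | ∀ i, |G i t - x i * q| ≤ δ * q} := ⟨_, rfl⟩
  have hgm : MeasurableSet good := by
    rw [hgood]
    have : {t | ∀ i, |G i t - x i * q| ≤ δ * q} = ⋂ i, {t | |G i t - x i * q| ≤ δ * q} := by
      ext t
      simp
    rw [this]
    exact MeasurableSet.iInter fun i => measurableSet_le ((hG i).sub_const _).abs measurable_const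
  obtain ⟨Bd, hBd⟩ : ∃ Bd : Fin k × Bool → Set ℝ, Bd = fun z =>
    {t | δ * ((sg z.2 * x z.1 + δ) * q) ≤ δ * (sg z.2 * G z.1 t)} := ⟨_, rfl⟩
  have hBm : ∀ z, MeasurableSet (Bd z) := by
    intro z
    rw [hBd]
    exact measurableSet_le measurable_const (((hG z.1).const_mul _).const_mul _)
  have hI : IntegrableOn (fun t => Real.exp (Y t)) A P := exp_intJ hYm hA hYV
  have hcov : ∀ t ∈ A, Real.exp (Y t) ≤ good.indicator (fun t => Real.exp (Y t)) t +
      ∑ z, (Bd z).indicator (fun t => Real.exp (Y t)) t := by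
    intro t _
    have hn : ∀ z, 0 ≤ (Bd z).indicator (fun t => Real.exp (Y t)) t := fun z =>
      Set.indicator_nonneg (fun _ _ => (Real.exp_pos _).le) _
    by_cases hg : t ∈ good
    · rw [Set.indicator_of_mem hg]
      have := Finset.sum_nonneg fun z (_ : z ∈ (Finset.univ : Finset (Fin k × Bool))) => hn z
      linarith
    · rw [Set.indicator_of_notMem hg, zero_add]
      have : ∃ z, t ∈ Bd z := by
        rw [hgood, Set.mem_ofPred_eq] at hg
        push Not at hg
        obtain ⟨i, hi⟩ := hg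
        rcases lt_abs.1 hi with h | h
        · refine ⟨(i, true), ?_⟩
          rw [hBd]
          show δ * ((sg true * x i + δ) * q) ≤ δ * (sg true * G i t)
          apply mul_le_mul_of_nonneg_left _ hδ.le
          have : sg true = 1 := by simp [sg]
          rw [this]
          linarith
        · refine ⟨(i, false), ?_⟩
          rw [hBd]
          show δ * ((sg false * x i + δ) * q) ≤ δ * (sg false * G i t)
          apply mul_le_mul_of_nonneg_left _ hδ.le
          have : sg false = -1 := by simp [sg]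
          rw [this]
          linarith
      obtain ⟨z, hz⟩ := this
      have h2 := Finset.single_le_sum (fun z _ => hn z) (Finset.mem_univ z)
      rw [Set.indicator_of_mem hz] at h2
      exact h2
  have hint1 : Integrable (good.indicator fun t => Real.exp (Y t)) (P.restrict A) := Integrable.indicator hI hgm
  have hint2 : ∀ z, Integrable ((Bd z).indicator fun t => Real.exp (Y t)) (P.restrict A) := fun z =>
    Integrable.indicator hI (hBm z)
  have hsum : ∫ t in A, Real.exp (Y t) ∂P ≤ ∫ t in A ∩ good, Real.exp (Y t) ∂P +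
      ∑ z, ∫ t in A ∩ Bd z, Real.exp (Y t) ∂P := by
    have h2 : ∫ t in A, Real.exp (Y t) ∂P ≤ ∫ t in A, (good.indicator (fun t => Real.exp (Y t)) t +
      ∑ z, (Bd z).indicator (fun t => Real.exp (Y t)) t) ∂P :=
      setIntegral_mono_on hI (hint1.add (integrable_finsetSum _ fun z _ => hint2 z)) hA hcov
    rw [integral_add hint1 (integrable_finsetSum _ fun z _ => hint2 z), integral_finset_sum _ fun z _ => hint2 z,
      setIntegral_indicator hgm] at h2
    simp only [setIntegral_indicator (hBm _)] at h2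
    exact h2
  have hB1 : ∀ z, ∫ t in A ∩ Bd z, Real.exp (Y t) ∂P ≤ Real.exp ((Q / 2 - δ ^ 2 / 2 + η) * q) := by
    intro z
    have h2 := cheb2 (P := P) (Y := Y) (Z := fun t => δ * (sg z.2 * G z.1 t)) (A := A) (V := (∑ i, |θ i|) * V)
      (V' := δ * V) hYm (((hG z.1).const_mul _).const_mul _) hA hYV (by
        intro t ht
        rw [abs_mul, abs_mul, abs_of_pos hδ]
        have : |sg z.2| = 1 := by rcases sg_or z.2 with h | h <;> rw [h] <;> norm_num
        rw [this, one_mul]
        exact mul_le_mul_of_nonneg_left (hV _ t ht) hδ.le) (δ * ((sg z.2 * x z.1 + δ) * q))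
    have h3 : ∀ t, Y t + δ * (sg z.2 * G z.1 t) = ∑ j, (θ j + if j = z.1 then sg z.2 * δ else 0) * G j t := by
      intro t
      simp only [add_mul, Finset.sum_add_distrib, ite_mul, zero_mul, Finset.sum_ite_eq', Finset.mem_univ, if_true]
      rw [← hYe]
      ring
    simp only [h3] at h2
    rw [hBd]
    refine h2.trans ((mul_le_mul_of_nonneg_left (h1 z.1 (sg z.2) (sg_or _)) (Real.exp_pos _).le).trans (le_of_eq ?_))
    rw [← Real.exp_add]
    congr 1
    ring
  have hB2 : ∑ z, ∫ t in A ∩ Bd z, Real.exp (Y t) ∂P ≤ Real.exp ((Q / 2 - η) * q) / 2 := by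
    refine (Finset.sum_le_sum fun z _ => hB1 z).trans ?_
    rw [Finset.sum_const, Finset.card_univ, Fintype.card_prod, Fintype.card_fin, Fintype.card_bool, nsmul_eq_mul]
    push_cast
    have h2 := mul_le_mul_of_nonneg_right hk (Real.exp_pos ((Q / 2 - δ ^ 2 / 2 + η) * q)).le
    have h3 : Real.exp ((δ ^ 2 / 2 - 2 * η) * q) * Real.exp ((Q / 2 - δ ^ 2 / 2 + η) * q) =
        Real.exp ((Q / 2 - η) * q) := by
      rw [← Real.exp_add]
      congr 1
      ring
    rw [h3] at h2
    linarith
  have hlow : Real.exp ((Q / 2 - η) * q) / 2 ≤ ∫ t in A ∩ good, Real.exp (Y t) ∂P := by linarith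
  have hup : ∫ t in A ∩ good, Real.exp (Y t) ∂P ≤
      Real.exp ((∑ i, θ i * x i + δ * ∑ i, |θ i|) * q) * P.real good := by
    calc ∫ t in A ∩ good, Real.exp (Y t) ∂P ≤
        ∫ _ in A ∩ good, Real.exp ((∑ i, θ i * x i + δ * ∑ i, |θ i|) * q) ∂P := by
          apply setIntegral_mono_on (hI.mono_set inter_subset_left) (integrableOn_const (measure_ne_top _ _))
            (hA.inter hgm)
          intro t ht
          apply Real.exp_le_exp.2
          have hg : ∀ i, |G i t - x i * q| ≤ δ * q := by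
            have := ht.2
            rw [hgood] at this
            exact this
          rw [← hYe, add_mul, Finset.sum_mul, Finset.mul_sum, Finset.sum_mul, ← Finset.sum_add_distrib]
          refine Finset.sum_le_sum fun i _ => ?_
          have h2 : θ i * G i t = θ i * x i * q + θ i * (G i t - x i * q) := by ring
          rw [h2]
          have h3 : θ i * (G i t - x i * q) ≤ |θ i| * (δ * q) := by
            refine (le_abs_self _).trans ?_
            rw [abs_mul]
            exact mul_le_mul_of_nonneg_left (hg i) (abs_nonneg _)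
          linarith
      _ = P.real (A ∩ good) * Real.exp ((∑ i, θ i * x i + δ * ∑ i, |θ i|) * q) := by
          rw [setIntegral_const, smul_eq_mul]
      _ ≤ P.real good * Real.exp ((∑ i, θ i * x i + δ * ∑ i, |θ i|) * q) :=
          mul_le_mul_of_nonneg_right (measureReal_mono inter_subset_right (measure_ne_top _ _)) (Real.exp_pos _).le
      _ = _ := mul_comm _ _
  rw [← hgood]
  have h5 : Real.exp ((Q / 2 - η - (∑ i, θ i * x i + δ * ∑ i, |θ i|)) * q) =
      Real.exp ((Q / 2 - η) * q) * Real.exp (-((∑ i, θ i * x i + δ * ∑ i, |θ i|) * q)) := by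
    rw [← Real.exp_add]
    congr 1
    ring
  have h6 : Real.exp ((∑ i, θ i * x i + δ * ∑ i, |θ i|) * q) *
      Real.exp (-((∑ i, θ i * x i + δ * ∑ i, |θ i|) * q)) = 1 := by rw [← Real.exp_add]; simp
  have h7 := mul_le_mul_of_nonneg_right (hlow.trans hup)
    (Real.exp_pos (-((∑ i, θ i * x i + δ * ∑ i, |θ i|) * q))).le
  rw [h5]
  calc Real.exp ((Q / 2 - η) * q) * Real.exp (-((∑ i, θ i * x i + δ * ∑ i, |θ i|) * q)) / 2 =
      Real.exp ((Q / 2 - η) * q) / 2 * Real.exp (-((∑ i, θ i * x i + δ * ∑ i, |θ i|) * q)) := by ring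
    _ ≤ _ := h7
    _ = P.real good * (Real.exp ((∑ i, θ i * x i + δ * ∑ i, |θ i|) * q) *
      Real.exp (-((∑ i, θ i * x i + δ * ∑ i, |θ i|) * q))) := by ring
    _ = P.real good := by rw [h6, mul_one]

end

end Pool.Agent.U403.Joint
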