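import Pool.Agent.U403.Joint.J4

/-! # Joint large deviations: the covariance matrix and the rate function -/

set_option autoImplicit false

open Filter Topology MeasureTheory Set
open Pool.Agent.U403.Max
open Pool.Agent.U403.Ldp

namespace Pool.Agent.U403.Joint

noncomputable section

variable {k : ℕ}

/-- the covariance matrix -/
def Sm (a : Fin k → ℝ) : Matrix (Fin k) (Fin k) ℝ := Matrix.of fun i j => SS2 a i j

/-- the rate function -/
def rate (a x : Fin k → ℝ) : ℝ := (x ⬝ᵥ (Matrix.mulVec (Sm a)⁻¹ x)) / 2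

lemma ind_mul (b c : ℝ) (t : ℝ) : (Ioc 0 b).indicator (fun _ => (1 : ℝ)) t * (Ioc 0 c).indicator (fun _ => (1 : ℝ)) t =
    (Ioc 0 (min b c)).indicator (fun _ => (1 : ℝ)) t := by
  by_cases h1 : t ∈ Ioc 0 b
  · by_cases h2 : t ∈ Ioc 0 c
    · rw [Set.indicator_of_mem h1, Set.indicator_of_mem h2, Set.indicator_of_mem, one_mul]
      exact ⟨h1.1, le_min h1.2 h2.2⟩
    · rw [Set.indicator_of_notMem h2, mul_zero, Set.indicator_of_notMem]
      intro h
      exact h2 ⟨h.1, h.2.trans (min_le_right _ _)⟩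
  · rw [Set.indicator_of_notMem h1, zero_mul, Set.indicator_of_notMem]
    intro h
    exact h1 ⟨h.1, h.2.trans (min_le_left _ _)⟩

lemma ind_int (b : ℝ) : Integrable ((Ioc 0 b).indicator fun _ => (1 : ℝ)) (volume : Measure ℝ) := by
  rw [integrable_indicator_iff measurableSet_Ioc]
  exact integrableOn_const (by simp)

/-- the kernel `min` is positive -/
lemma min_psd (a θ : Fin k → ℝ) (ha : ∀ i, 0 < a i) : 0 ≤ ∑ i, ∑ j, θ i * θ j * min (a i) (a j) := by
  have h1 : ∀ i j, ∫ t : ℝ, θ i * (Ioc 0 (a i)).indicator (fun _ => (1 : ℝ)) t *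
      (θ j * (Ioc 0 (a j)).indicator (fun _ => (1 : ℝ)) t) = θ i * θ j * min (a i) (a j) := by
    intro i j
    have e : ∀ t : ℝ, θ i * (Ioc 0 (a i)).indicator (fun _ => (1 : ℝ)) t *
        (θ j * (Ioc 0 (a j)).indicator (fun _ => (1 : ℝ)) t) =
        θ i * θ j * (Ioc 0 (min (a i) (a j))).indicator (fun _ => (1 : ℝ)) t := by
      intro t
      rw [← ind_mul]
      ring
    simp only [e]
    rw [integral_const_mul, integral_indicator measurableSet_Ioc, setIntegral_const, smul_eq_mul, mul_one,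
      Real.volume_real_Ioc_of_le (lt_min (ha i) (ha j)).le, sub_zero]
  have h2 : ∑ i, ∑ j, θ i * θ j * min (a i) (a j) =
      ∫ t : ℝ, (∑ i, θ i * (Ioc 0 (a i)).indicator (fun _ => (1 : ℝ)) t) ^ 2 := by
    have e : ∀ t : ℝ, (∑ i, θ i * (Ioc 0 (a i)).indicator (fun _ => (1 : ℝ)) t) ^ 2 =
        ∑ i, ∑ j, θ i * (Ioc 0 (a i)).indicator (fun _ => (1 : ℝ)) t *
          (θ j * (Ioc 0 (a j)).indicator (fun _ => (1 : ℝ)) t) := by
      intro t
      rw [sq, Finset.sum_mul_sum]
    simp only [e]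
    have hi : ∀ i j, Integrable (fun t : ℝ => θ i * (Ioc 0 (a i)).indicator (fun _ => (1 : ℝ)) t *
          (θ j * (Ioc 0 (a j)).indicator (fun _ => (1 : ℝ)) t)) volume := by
      intro i j
      have e : (fun t : ℝ => θ i * (Ioc 0 (a i)).indicator (fun _ => (1 : ℝ)) t *
        (θ j * (Ioc 0 (a j)).indicator (fun _ => (1 : ℝ)) t)) = fun t =>
        θ i * θ j * (Ioc 0 (min (a i) (a j))).indicator (fun _ => (1 : ℝ)) t := by
        funext t
        rw [← ind_mul]
        ring
      rw [e]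
      exact (ind_int _).const_mul _
    rw [integral_finsetSum _ fun i _ => integrable_finsetSum _ fun j _ => hi i j]
    refine Finset.sum_congr rfl fun i _ => ?_
    rw [integral_finsetSum _ fun j _ => hi i j]
    exact Finset.sum_congr rfl fun j _ => (h1 i j).symm
  rw [h2]
  exact integral_nonneg fun t => sq_nonneg _

lemma Qf_eq (a θ : Fin k → ℝ) : Qf a θ = θ ⬝ᵥ (Matrix.mulVec (Sm a) θ) := by
  unfold Qf dotProduct Matrix.mulVec dotProduct
  refine Finset.sum_congr rfl fun i _ => ?_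
  rw [Finset.mul_sum]
  refine Finset.sum_congr rfl fun j _ => ?_
  simp only [Sm, Matrix.of_apply]
  ring

/-- the form is positive definite -/
lemma Qf_pos (a θ : Fin k → ℝ) (ha : ∀ i, 0 < a i) : (∑ i, a i * θ i ^ 2) / (2 * Real.pi ^ 2) ≤ Qf a θ := by
  have hpi := Real.pi_pos
  have e : Qf a θ = (∑ i, ∑ j, θ i * θ j * min (a i) (a j) + ∑ i, a i * θ i ^ 2) / (2 * Real.pi ^ 2) := by
    unfold Qf SS2
    rw [← Finset.sum_add_distrib, Finset.sum_div]
    refine Finset.sum_congr rfl fun i _ => ?_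
    have e2 : ∀ j, θ i * θ j * ((min (a i) (a j) + if i = j then a i else 0) / (2 * Real.pi ^ 2)) =
        (θ i * θ j * min (a i) (a j) + if i = j then θ i * θ j * a i else 0) / (2 * Real.pi ^ 2) := by
      intro j
      split_ifs <;> ring
    simp only [e2]
    rw [← Finset.sum_div, Finset.sum_add_distrib, Finset.sum_ite_eq, if_pos (Finset.mem_univ _)]
    congr 2
    ring
  rw [e]
  apply div_le_div_of_nonneg_right _ (by positivity)
  have := min_psd a θ ha
  linarith

lemma Sm_unit (a : Fin k → ℝ) (ha : ∀ i, 0 < a i) : IsUnit (Sm a).det := by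
  rw [← Matrix.isUnit_iff_isUnit_det, ← Matrix.mulVec_injective_iff_isUnit]
  have h0 : ∀ θ : Fin k → ℝ, Matrix.mulVec (Sm a) θ = 0 → θ = 0 := by
    intro θ h
    have h1 := Qf_pos a θ ha
    rw [Qf_eq, h, dotProduct_zero] at h1
    have hpi := Real.pi_pos
    have h2 : ∑ i, a i * θ i ^ 2 ≤ 0 := by
      by_contra hc
      push Not at hc
      have : 0 < (∑ i, a i * θ i ^ 2) / (2 * Real.pi ^ 2) := by positivity
      linarith
    have h3 : ∀ i ∈ Finset.univ, 0 ≤ a i * θ i ^ 2 := fun i _ => mul_nonneg (ha i).le (sq_nonneg _)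
    have h4 := (Finset.sum_eq_zero_iff_of_nonneg h3).1 (le_antisymm h2 (Finset.sum_nonneg h3))
    funext i
    have h5 := h4 i (Finset.mem_univ i)
    rcases mul_eq_zero.1 h5 with h | h
    · exact absurd h (ha i).ne'
    · exact pow_eq_zero_iff two_ne_zero |>.1 h
  intro x y hxy
  have : Matrix.mulVec (Sm a) (x - y) = 0 := by
    rw [Matrix.mulVec_sub]
    exact sub_eq_zero.2 hxy
  exact sub_eq_zero.1 (h0 _ this)

/-- the tilt -/
def tilt (a x : Fin k → ℝ) : Fin k → ℝ := Matrix.mulVec (Sm a)⁻¹ x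

lemma tilt_spec (a x : Fin k → ℝ) (ha : ∀ i, 0 < a i) : Matrix.mulVec (Sm a) (tilt a x) = x := by
  unfold tilt
  rw [Matrix.mulVec_mulVec, Matrix.mul_nonsing_inv _ (Sm_unit a ha), Matrix.one_mulVec]

lemma tilt_apply (a x : Fin k → ℝ) (ha : ∀ i, 0 < a i) (i : Fin k) : ∑ j, SS2 a i j * tilt a x j = x i := by
  have := congrFun (tilt_spec a x ha) i
  simpa [Matrix.mulVec, dotProduct, Sm] using this

lemma tilt_dot (a x : Fin k → ℝ) : ∑ i, tilt a x i * x i = 2 * rate a x := by
  unfold rate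
  rw [mul_div_cancel₀ _ two_ne_zero, dotProduct_comm]
  rfl

lemma tilt_Q (a x : Fin k → ℝ) (ha : ∀ i, 0 < a i) : Qf a (tilt a x) = 2 * rate a x := by
  rw [Qf_eq, tilt_spec a x ha, ← tilt_dot]
  rfl

lemma rate_nonneg (a x : Fin k → ℝ) (ha : ∀ i, 0 < a i) : 0 ≤ rate a x := by
  have h1 := Qf_pos a (tilt a x) ha
  rw [tilt_Q a x ha] at h1
  have h2 : 0 ≤ (∑ i, a i * tilt a x i ^ 2) / (2 * Real.pi ^ 2) := by
    apply div_nonneg
    · exact Finset.sum_nonneg fun i _ => mul_nonneg (ha i).le (sq_nonneg _)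
    · positivity
  linarith

lemma SS2_symm (a : Fin k → ℝ) (i j : Fin k) : SS2 a i j = SS2 a j i := by
  unfold SS2
  rw [min_comm]
  by_cases h : i = j
  · rw [h]
  · rw [if_neg h, if_neg (Ne.symm h)]

lemma SS2_diag (a : Fin k → ℝ) (ha1 : ∀ i, a i ≤ 1) (i : Fin k) : SS2 a i i ≤ 1 := by
  unfold SS2
  rw [min_self, if_pos rfl]
  have := Real.pi_gt_three
  rw [div_le_one (by positivity)]
  nlinarith [ha1 i]

/-- the form at a perturbed point -/
lemma Qf_pert (a θ x : Fin k → ℝ) (ha1 : ∀ i, a i ≤ 1) (hx : ∀ i, ∑ j, SS2 a i j * θ j = x i) (i : Fin k)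
    (σ δ : ℝ) (hσ : σ = 1 ∨ σ = -1) :
    Qf a (fun j => θ j + if j = i then σ * δ else 0) / 2 ≤ Qf a θ / 2 + σ * δ * x i + δ ^ 2 / 2 := by
  obtain ⟨c, hc⟩ : ∃ c : ℝ, c = σ * δ := ⟨_, rfl⟩
  have hc2 : c ^ 2 = δ ^ 2 := by rcases hσ with h | h <;> rw [hc, h] <;> ring
  rw [← hc, ← hc2]
  have e : Qf a (fun j => θ j + if j = i then c else 0) = Qf a θ + 2 * (c * x i) + c ^ 2 * SS2 a i i := by
    have e1 : Qf a (fun j => θ j + if j = i then c else 0) = Qf a θ + ∑ l, ∑ j, (θ l * (if j = i then c else 0)) * SS2 a l j +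
        ∑ l, ∑ j, ((if l = i then c else 0) * θ j) * SS2 a l j +
        ∑ l, ∑ j, ((if l = i then c else 0) * (if j = i then c else 0)) * SS2 a l j := by
      unfold Qf
      rw [← Finset.sum_add_distrib, ← Finset.sum_add_distrib, ← Finset.sum_add_distrib]
      refine Finset.sum_congr rfl fun l _ => ?_
      rw [← Finset.sum_add_distrib, ← Finset.sum_add_distrib, ← Finset.sum_add_distrib]
      refine Finset.sum_congr rfl fun j _ => ?_
      ring
    have e2 : ∑ l, ∑ j, (θ l * (if j = i then c else 0)) * SS2 a l j = c * x i := by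
      rw [← hx i, Finset.mul_sum]
      refine Finset.sum_congr rfl fun l _ => ?_
      simp only [mul_ite, mul_zero, ite_mul, zero_mul, Finset.sum_ite_eq', Finset.mem_univ, if_true]
      rw [SS2_symm a l i]
      ring
    have e3 : ∑ l, ∑ j, ((if l = i then c else 0) * θ j) * SS2 a l j = c * x i := by
      rw [← hx i, Finset.mul_sum, Finset.sum_comm]
      refine Finset.sum_congr rfl fun j _ => ?_
      simp only [ite_mul, zero_mul, Finset.sum_ite_eq', Finset.mem_univ, if_true]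
      ring
    have e4 : ∑ l, ∑ j, ((if l = i then c else 0) * (if j = i then c else 0)) * SS2 a l j = c ^ 2 * SS2 a i i := by
      simp only [mul_ite, mul_zero, ite_mul, zero_mul, Finset.sum_ite_eq', Finset.mem_univ, if_true]
      ring
    rw [e1, e2, e3, e4]
    ring
  rw [e]
  have h1 := mul_le_mul_of_nonneg_left (SS2_diag a ha1 i) (sq_nonneg c)
  linarith

lemma Qf_single (a : Fin k → ℝ) (ha1 : ∀ i, a i ≤ 1) (i : Fin k) (b : Bool) :
    Qf a (fun j => if j = i then sg b else 0) ≤ 1 := by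
  have h1 := Qf_pert a (fun _ => 0) (fun _ => 0) ha1 (fun _ => by simp) i (sg b) 1 (sg_or b)
  have h2 : Qf a (fun _ => 0) = 0 := by
    unfold Qf
    simp
  simp only [zero_add, mul_one, h2] at h1
  linarith

lemma rate_cont (a : Fin k → ℝ) : Continuous (rate a) := by
  unfold rate
  simp only [dotProduct, Matrix.mulVec]
  fun_prop

/-- **the cover by half spaces** -/
lemma cover (a : Fin k → ℝ) (ha : ∀ i, 0 < a i) (ha1 : ∀ i, a i ≤ 1) (m e : ℝ) (he : 0 < e) :
    ∃ F : Finset ((Fin k → ℝ) × ℝ), (∀ z ∈ F, m - e ≤ z.2 - Qf a z.1 / 2) ∧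
      ∀ x, m ≤ rate a x → ∃ z ∈ F, z.2 < ∑ i, z.1 i * x i := by
  classical
  obtain ⟨K, hK⟩ : ∃ K : Set (Fin k → ℝ), K = Icc (fun _ => -(|m| + 2)) (fun _ => |m| + 2) ∩ {x | m ≤ rate a x} :=
    ⟨_, rfl⟩
  have hKc : IsCompact K := by
    rw [hK]
    exact isCompact_Icc.inter_right (isClosed_le continuous_const (rate_cont a))
  obtain ⟨t, ht1, ht2⟩ := hKc.elim_nhds_subcover (fun x => {y | 2 * rate a x - e < ∑ i, tilt a x i * y i}) (by
    intro x _
    apply (isOpen_lt continuous_const (by fun_prop)).mem_nhds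
    show 2 * rate a x - e < ∑ i, tilt a x i * x i
    rw [tilt_dot]
    linarith)
  refine ⟨t.image (fun x => (tilt a x, 2 * rate a x - e)) ∪
    (Finset.univ : Finset (Fin k × Bool)).image (fun z => ((fun j => if j = z.1 then sg z.2 else 0), |m| + 1)), ?_, ?_⟩
  · intro z hz
    rw [Finset.mem_union, Finset.mem_image, Finset.mem_image] at hz
    rcases hz with ⟨x, hx, rfl⟩ | ⟨y, -, rfl⟩
    · show m - e ≤ 2 * rate a x - e - Qf a (tilt a x) / 2
      rw [tilt_Q a x ha]
      have h1 := ht1 x hx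
      rw [hK] at h1
      have h2 : m ≤ rate a x := h1.2
      linarith
    · show m - e ≤ |m| + 1 - Qf a (fun j => if j = y.1 then sg y.2 else 0) / 2
      have h1 := Qf_single a ha1 y.1 y.2
      have h2 := le_abs_self m
      linarith
  · intro x hx
    by_cases hb : ∀ i, |x i| ≤ |m| + 2
    · have hxK : x ∈ K := by
        rw [hK]
        exact ⟨⟨fun i => (abs_le.1 (hb i)).1, fun i => (abs_le.1 (hb i)).2⟩, hx⟩
      have h1 := ht2 hxK
      rw [Set.mem_iUnion₂] at h1
      obtain ⟨y, hy, hxy⟩ := h1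
      refine ⟨(tilt a y, 2 * rate a y - e), ?_, hxy⟩
      rw [Finset.mem_union, Finset.mem_image]
      exact Or.inl ⟨y, hy, rfl⟩
    · push Not at hb
      obtain ⟨i, hi⟩ := hb
      have h3 : ∃ b : Bool, |m| + 2 < sg b * x i := by
        rcases lt_abs.1 hi with h | h
        · exact ⟨true, by simpa [sg] using h⟩
        · exact ⟨false, by simpa [sg] using h⟩
      obtain ⟨b, hb⟩ := h3
      refine ⟨((fun j => if j = i then sg b else 0), |m| + 1), ?_, ?_⟩
      · rw [Finset.mem_union, Finset.mem_image, Finset.mem_image]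
        exact Or.inr ⟨(i, b), Finset.mem_univ _, rfl⟩
      · show |m| + 1 < ∑ j, (if j = i then sg b else 0) * x j
        simp only [ite_mul, zero_mul, Finset.sum_ite_eq', Finset.mem_univ, if_true]
        linarith

end

end Pool.Agent.U403.Joint
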