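import Pool.Agent.U403.Joint.J5

/-! # Joint large deviations: the two bounds -/

set_option autoImplicit false

open Filter Topology MeasureTheory Set
open Pool.Agent.Y743.CL
open Pool.Agent.R320.JL
open SP (RHs)
open SG (NZ)
open Pool.Agent.U403.Max
open Pool.Agent.U403.Ldp

namespace Pool.Agent.U403.Joint

noncomputable section

variable {k : ℕ}

/-- the normalised vector of the deviations of the counts -/
def DV (a : Fin k → ℝ) (r : ℕ) (T t : ℝ) : Fin k → ℝ := fun i => YY T (dd2 (a i) r) t / Real.log r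

lemma Ga_cont (κ : ℝ) (K : ℕ) (a : ℝ) (r d : ℕ) (T : ℝ) : Continuous (Ga κ K a r d T) := by
  unfold Ga
  exact ((fld_cont _ _).comp (by fun_prop)).sub (fld_cont _ _)

/-- the comparison for all the windows at once -/
theorem cmpAll (hRH : RHs) (a : Fin k → ℝ) (ha : ∀ i, 0 < a i) (ha1 : ∀ i, a i ≤ 1) (ε A : ℝ) (hε : 0 < ε)
    (hA : 0 ≤ A) : ∃ κ : ℝ, 0 < κ ∧ ∃ K₀ : ℕ, ∀ K : ℕ, K₀ ≤ K → 3 ≤ K → ∀ᶠ r : ℕ in atTop, ∀ᶠ T : ℝ in atTop,
      ∀ i, (PT T).real {t | ε * Real.log r ≤ |YY T (dd2 (a i) r) t - Ga κ K (a i) r (dd2 (a i) r) T t|} ≤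
        Real.exp (-(A * Real.log r)) := by
  obtain ⟨κ, hκ, h⟩ := cmpA hRH ε hε A hA
  refine ⟨κ, hκ, ?_⟩
  choose K₀ hK₀ using fun i => h (a i) (ha i) (ha1 i)
  refine ⟨∑ i, K₀ i, fun K hK hK3 => ?_⟩
  have h1 : ∀ᶠ r : ℕ in atTop, ∀ i, ∀ᶠ T : ℝ in atTop,
      ∀ d : ℕ, 1 ≤ d → (d : ℝ) ≤ 2 * Real.exp (a i * Real.log r) →
      (PT T).real {t | ε * Real.log r ≤ |YY T d t - Ga κ K (a i) r d T t|} ≤ Real.exp (-(A * Real.log r)) := by
    rw [eventually_all]
    intro i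
    exact hK₀ i K ((Finset.single_le_sum (f := K₀) (fun _ _ => Nat.zero_le _) (Finset.mem_univ i)).trans hK) hK3
  filter_upwards [h1, sizes a ha ha1] with r h1 hs
  rw [← eventually_all] at h1
  filter_upwards [h1] with T h1 i
  refine h1 i _ (hs.1 i).1 ?_
  have := dd2_le (a i) r
  have := Real.exp_pos (a i * Real.log r)
  linarith

/-- **the upper bound** -/
theorem jointUp (hRH : RHs) (a : Fin k → ℝ) (ha : ∀ i, 0 < a i) (ha1 : ∀ i, a i ≤ 1) (hinj : Function.Injective a)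
    (E : Set (Fin k → ℝ)) (m ε : ℝ) (hε : 0 < ε) (hE : ∀ x ∈ E, m ≤ rate a x) :
    ∀ᶠ r : ℕ in atTop, ∀ᶠ T : ℝ in atTop,
      (PT T).real {t | DV a r T t ∈ E} ≤ Real.exp (-((m - ε) * Real.log r)) := by
  obtain ⟨F, hF1, hF2⟩ := cover a ha ha1 m (ε / 4) (by positivity)
  obtain ⟨R, hR⟩ : ∃ R : ℝ, R = 2 + |m| + ∑ z ∈ F, ∑ i, |z.1 i| := ⟨_, rfl⟩
  have hs0 : 0 ≤ ∑ z ∈ F, ∑ i, |z.1 i| := Finset.sum_nonneg fun z _ => Finset.sum_nonneg fun i _ => abs_nonneg _
  have hm0 := abs_nonneg m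
  have hR1 : 1 ≤ R := by linarith
  have hR0 : 0 < R := by linarith
  have hRz : ∀ z ∈ F, ∑ i, |z.1 i| ≤ R := by
    intro z hz
    have := Finset.single_le_sum (f := fun z : (Fin k → ℝ) × ℝ => ∑ i, |z.1 i|)
      (fun z _ => Finset.sum_nonneg fun i _ => abs_nonneg _) hz
    linarith
  obtain ⟨κ, hκ, K₁, h1⟩ := cmpAll hRH a ha ha1 (ε / (8 * R)) (|m| + 1) (by positivity) (by positivity)
  obtain ⟨K₂, h2⟩ := lapJ a ha ha1 hinj R (ε / 8) hR1 (by positivity) κ hκ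
  have h1 := h1 (K₁ + K₂ + 3) (by omega) (by omega)
  have h2 := h2 (K₁ + K₂ + 3) (by omega) (by omega)
  obtain ⟨K, hK⟩ : ∃ K : ℕ, K = K₁ + K₂ + 3 := ⟨_, rfl⟩
  rw [← hK] at h1 h2
  filter_upwards [h1, h2, logr_top.eventually_ge_atTop 1, logr_top.eventually_ge_atTop (2 * ((k : ℝ) + 1 + F.card) / ε)]
    with r h1 h2 hq1 hq2
  filter_upwards [h1, h2, eventually_ge_atTop 1] with T h1 h2 hT1
  have hT0 : 0 < T := by linarith
  have := PT_univ hT0
  obtain ⟨A, V, hAm, hAc, hAV, hlap⟩ := h2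
  obtain ⟨q, hq⟩ : ∃ q : ℝ, q = Real.log r := ⟨_, rfl⟩
  unfold DV
  rw [← hq] at h1 hAc hlap hq1 hq2 ⊢
  have hq0 : 0 < q := by linarith
  rw [div_le_iff₀ hε] at hq2
  obtain ⟨G, hG⟩ : ∃ G : Fin k → ℝ → ℝ, G = fun i t => Ga κ K (a i) r (dd2 (a i) r) T t := ⟨_, rfl⟩
  have hGe : ∀ i t, Ga κ K (a i) r (dd2 (a i) r) T t = G i t := fun i t => by rw [hG]
  have hGm : ∀ i, Measurable (G i) := fun i => by rw [hG]; exact (Ga_cont _ _ _ _ _ _).measurable
  simp only [hGe] at h1 hAV hlap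
  obtain ⟨Y, hY⟩ : ∃ Y : Fin k → ℝ → ℝ, Y = fun i t => YY T (dd2 (a i) r) t := ⟨_, rfl⟩
  have hYe : ∀ i t, YY T (dd2 (a i) r) t = Y i t := fun i t => by rw [hY]
  simp only [hYe] at h1 ⊢
  -- the inclusion
  have hsub : {t | (fun i => Y i t / q) ∈ E} ⊆ (⋃ i ∈ (Finset.univ : Finset (Fin k)), {t | ε / (8 * R) * q ≤ |Y i t - G i t|}) ∪
      (Aᶜ ∪ ⋃ z ∈ F, (A ∩ {t | (z.2 - ε / 8) * q ≤ ∑ i, z.1 i * G i t})) := by
    intro t ht
    by_cases hb : ∃ i, ε / (8 * R) * q ≤ |Y i t - G i t|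
    · obtain ⟨i, hi⟩ := hb
      left
      simp only [Set.mem_iUnion]
      exact ⟨i, Finset.mem_univ i, hi⟩
    push Not at hb
    right
    by_cases htA : t ∈ A
    · right
      obtain ⟨z, hz, hzx⟩ := hF2 _ (hE _ ht)
      simp only [Set.mem_iUnion]
      refine ⟨z, hz, htA, ?_⟩
      show (z.2 - ε / 8) * q ≤ ∑ i, z.1 i * G i t
      have e1 : ∑ i, z.1 i * (Y i t / q) = (∑ i, z.1 i * Y i t) / q := by
        rw [Finset.sum_div]
        exact Finset.sum_congr rfl fun i _ => by ring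
      rw [e1, lt_div_iff₀ hq0] at hzx
      have e2 : |∑ i, z.1 i * (Y i t - G i t)| ≤ ε / 8 * q := by
        calc |∑ i, z.1 i * (Y i t - G i t)| ≤ ∑ i, |z.1 i| * (ε / (8 * R) * q) := by
              refine (Finset.abs_sum_le_sum_abs _ _).trans (Finset.sum_le_sum fun i _ => ?_)
              rw [abs_mul]
              exact mul_le_mul_of_nonneg_left (hb i).le (abs_nonneg _)
          _ = (∑ i, |z.1 i|) * (ε / (8 * R) * q) := by rw [Finset.sum_mul]
          _ ≤ R * (ε / (8 * R) * q) := mul_le_mul_of_nonneg_right (hRz z hz) (by positivity)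
          _ = ε / 8 * q := by field_simp
      have e3 : ∑ i, z.1 i * (Y i t - G i t) = ∑ i, z.1 i * Y i t - ∑ i, z.1 i * G i t := by
        rw [← Finset.sum_sub_distrib]
        exact Finset.sum_congr rfl fun i _ => by ring
      rw [e3] at e2
      have := (abs_le.1 e2).2
      linarith
    · left
      exact htA
  refine (measureReal_mono hsub (measure_ne_top _ _)).trans ?_
  refine (measureReal_union_le _ _).trans ?_
  have b1 : (PT T).real (⋃ i ∈ (Finset.univ : Finset (Fin k)), {t | ε / (8 * R) * q ≤ |Y i t - G i t|}) ≤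
      k * Real.exp (-((m - ε / 2) * q)) := by
    refine (measureReal_biUnion_finset_le _ _).trans ?_
    refine (Finset.sum_le_sum fun i _ => h1 i).trans ?_
    rw [Finset.sum_const, Finset.card_univ, Fintype.card_fin, nsmul_eq_mul]
    apply mul_le_mul_of_nonneg_left _ (Nat.cast_nonneg _)
    apply Real.exp_le_exp.2
    have := le_abs_self m
    nlinarith
  have b2 : (PT T).real Aᶜ ≤ Real.exp (-((m - ε / 2) * q)) := by
    refine hAc.trans (Real.exp_le_exp.2 ?_)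
    have h3 := le_abs_self m
    have h4 : |m| ≤ R ^ 2 := by nlinarith
    nlinarith
  have b3 : ∀ z ∈ F, (PT T).real (A ∩ {t | (z.2 - ε / 8) * q ≤ ∑ i, z.1 i * G i t}) ≤
      Real.exp (-((m - ε / 2) * q)) := by
    intro z hz
    have g1 := upJ (P := PT T) (Z := fun t => ∑ i, z.1 i * G i t) (A := A) (V := (∑ i, |z.1 i|) * V)
      (Finset.measurable_sum _ fun i _ => (hGm i).const_mul _) hAm (by
        intro t ht
        rw [Finset.sum_mul]
        refine (Finset.abs_sum_le_sum_abs _ _).trans (Finset.sum_le_sum fun i _ => ?_)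
        rw [abs_mul]
        exact mul_le_mul_of_nonneg_left (hAV i t ht) (abs_nonneg _)) ((z.2 - ε / 8) * q)
    refine g1.trans ((mul_le_mul_of_nonneg_left (hlap z.1 (hRz z hz)).2 (Real.exp_pos _).le).trans ?_)
    rw [← Real.exp_add]
    apply Real.exp_le_exp.2
    have h5 := hF1 z hz
    nlinarith
  have b4 : (PT T).real (Aᶜ ∪ ⋃ z ∈ F, (A ∩ {t | (z.2 - ε / 8) * q ≤ ∑ i, z.1 i * G i t})) ≤
      Real.exp (-((m - ε / 2) * q)) + F.card * Real.exp (-((m - ε / 2) * q)) := by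
    refine (measureReal_union_le _ _).trans (add_le_add b2 ?_)
    refine (measureReal_biUnion_finset_le _ _).trans ((Finset.sum_le_sum b3).trans ?_)
    rw [Finset.sum_const, nsmul_eq_mul]
  have e5 : Real.exp (-((m - ε) * q)) = Real.exp (ε / 2 * q) * Real.exp (-((m - ε / 2) * q)) := by
    rw [← Real.exp_add]
    congr 1
    ring
  rw [e5]
  have h6 : (k : ℝ) + 1 + F.card ≤ Real.exp (ε / 2 * q) := by
    have := Real.add_one_le_exp (ε / 2 * q)
    linarith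
  have h7 := mul_le_mul_of_nonneg_right h6 (Real.exp_pos (-((m - ε / 2) * q))).le
  linarith

/-- **the lower bound** -/
theorem jointLow (hRH : RHs) (a : Fin k → ℝ) (ha : ∀ i, 0 < a i) (ha1 : ∀ i, a i ≤ 1) (hinj : Function.Injective a)
    (E : Set (Fin k → ℝ)) (x : Fin k → ℝ) (hx : x ∈ interior E) (ε : ℝ) (hε : 0 < ε) :
    ∀ᶠ r : ℕ in atTop, ∀ᶠ T : ℝ in atTop,
      Real.exp (-((rate a x + ε) * Real.log r)) ≤ (PT T).real {t | DV a r T t ∈ E} := by
  obtain ⟨θ, hθ⟩ : ∃ θ : Fin k → ℝ, θ = tilt a x := ⟨_, rfl⟩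
  have hθx : ∀ i, ∑ j, SS2 a i j * θ j = x i := fun i => by rw [hθ]; exact tilt_apply a x ha i
  have hQ : Qf a θ = 2 * rate a x := by rw [hθ]; exact tilt_Q a x ha
  have hdot : ∑ i, θ i * x i = 2 * rate a x := by rw [hθ]; exact tilt_dot a x
  have hrate := rate_nonneg a x ha
  obtain ⟨ρ, hρ, hball⟩ : ∃ ρ : ℝ, 0 < ρ ∧ ∀ y : Fin k → ℝ, (∀ i, |y i - x i| < ρ) → y ∈ E := by
    rw [mem_interior_iff_mem_nhds, Metric.mem_nhds_iff] at hx
    obtain ⟨ρ, hρ, hb⟩ := hx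
    refine ⟨ρ, hρ, fun y hy => hb ?_⟩
    rw [Metric.mem_ball, dist_pi_lt_iff hρ]
    intro i
    rw [Real.dist_eq]
    exact hy i
  obtain ⟨L, hL⟩ : ∃ L : ℝ, L = ∑ i, |θ i| := ⟨_, rfl⟩
  have hL0 : 0 ≤ L := by rw [hL]; exact Finset.sum_nonneg fun i _ => abs_nonneg _
  obtain ⟨δ, hδ⟩ : ∃ δ : ℝ, δ = min 1 (min (ρ / 4) (ε / (8 * (L + 1)))) := ⟨_, rfl⟩
  have hδ0 : 0 < δ := by rw [hδ]; exact lt_min one_pos (lt_min (by positivity) (by positivity))
  have hδ1 : δ ≤ 1 := by rw [hδ]; exact min_le_left _ _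
  have hδ2 : δ ≤ ρ / 4 := by rw [hδ]; exact (min_le_right _ _).trans (min_le_left _ _)
  have hδ3 : δ * L ≤ ε / 8 := by
    have h1 : δ ≤ ε / (8 * (L + 1)) := by rw [hδ]; exact (min_le_right _ _).trans (min_le_right _ _)
    rw [le_div_iff₀ (by positivity)] at h1
    nlinarith
  obtain ⟨η, hη⟩ : ∃ η : ℝ, η = min (δ ^ 2 / 8) (ε / 8) := ⟨_, rfl⟩
  have hη0 : 0 < η := by rw [hη]; exact lt_min (by positivity) (by positivity)
  have hη1 : η ≤ δ ^ 2 / 8 := by rw [hη]; exact min_le_left _ _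
  have hη2 : η ≤ ε / 8 := by rw [hη]; exact min_le_right _ _
  obtain ⟨R, hR⟩ : ∃ R : ℝ, R = L + 1 + rate a x + ε + 1 := ⟨_, rfl⟩
  have hR1 : 1 ≤ R := by linarith
  obtain ⟨κ, hκ, K₁, h1⟩ := cmpAll hRH a ha ha1 δ (rate a x + ε) hδ0 (by positivity)
  obtain ⟨K₂, h2⟩ := lapJ a ha ha1 hinj R η hR1 hη0 κ hκ
  have h1 := h1 (K₁ + K₂ + 3) (by omega) (by omega)
  have h2 := h2 (K₁ + K₂ + 3) (by omega) (by omega)
  obtain ⟨K, hK⟩ : ∃ K : ℕ, K = K₁ + K₂ + 3 := ⟨_, rfl⟩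
  rw [← hK] at h1 h2
  filter_upwards [h1, h2, logr_top.eventually_ge_atTop 1, logr_top.eventually_ge_atTop (4 * (2 * ((k : ℝ) + 1)) / ε),
    logr_top.eventually_ge_atTop (4 * (4 * (k : ℝ)) / δ ^ 2)] with r h1 h2 hq1 hq2 hq3
  filter_upwards [h1, h2, eventually_ge_atTop 1] with T h1 h2 hT1
  have hT0 : 0 < T := by linarith
  have := PT_univ hT0
  obtain ⟨A, V, hAm, hAc, hAV, hlap⟩ := h2
  obtain ⟨q, hq⟩ : ∃ q : ℝ, q = Real.log r := ⟨_, rfl⟩
  unfold DV
  rw [← hq] at h1 hAc hlap hq1 hq2 hq3 ⊢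
  have hq0 : 0 < q := by linarith
  rw [div_le_iff₀ hε] at hq2
  rw [div_le_iff₀ (by positivity)] at hq3
  obtain ⟨G, hG⟩ : ∃ G : Fin k → ℝ → ℝ, G = fun i t => Ga κ K (a i) r (dd2 (a i) r) T t := ⟨_, rfl⟩
  have hGe : ∀ i t, Ga κ K (a i) r (dd2 (a i) r) T t = G i t := fun i t => by rw [hG]
  have hGm : ∀ i, Measurable (G i) := fun i => by rw [hG]; exact (Ga_cont _ _ _ _ _ _).measurable
  simp only [hGe] at h1 hAV hlap
  obtain ⟨Y, hY⟩ : ∃ Y : Fin k → ℝ → ℝ, Y = fun i t => YY T (dd2 (a i) r) t := ⟨_, rfl⟩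
  have hYe : ∀ i t, YY T (dd2 (a i) r) t = Y i t := fun i t => by rw [hY]
  simp only [hYe] at h1 ⊢
  have hlow := lowJ (P := PT T) (G := G) hGm hAm hAV θ x δ q η (Qf a θ) hδ0
    (hlap θ (by rw [← hL]; linarith)).1 (by
      intro i σ hσ
      refine ((hlap (fun j => θ j + if j = i then σ * δ else 0) ?_).2).trans (Real.exp_le_exp.2 ?_)
      · calc ∑ j, |θ j + if j = i then σ * δ else 0| ≤ ∑ j, (|θ j| + if j = i then δ else 0) := by
              refine Finset.sum_le_sum fun j _ => ?_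
              refine (abs_add_le _ _).trans (add_le_add le_rfl ?_)
              split_ifs
              · rw [abs_mul, abs_of_pos hδ0]
                rcases hσ with h | h <;> rw [h] <;> simp
              · simp
          _ = L + δ := by
              rw [Finset.sum_add_distrib, Finset.sum_ite_eq', if_pos (Finset.mem_univ _), hL]
          _ ≤ R := by linarith
      · have := Qf_pert a θ x ha1 hθx i σ δ hσ
        have h0 := mul_le_mul_of_nonneg_right this hq0.le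
        nlinarith) (by
      have h5 : δ ^ 2 / 4 * q ≤ (δ ^ 2 / 2 - 2 * η) * q := by
        apply mul_le_mul_of_nonneg_right _ hq0.le
        linarith
      have h6 := Real.add_one_le_exp ((δ ^ 2 / 2 - 2 * η) * q)
      linarith)
  have hsub : {t | ∀ i, |G i t - x i * q| ≤ δ * q} ⊆ {t | (fun i => Y i t / q) ∈ E} ∪
      ⋃ i ∈ (Finset.univ : Finset (Fin k)), {t | δ * q ≤ |Y i t - G i t|} := by
    intro t ht
    by_cases hb : ∃ i, δ * q ≤ |Y i t - G i t|
    · obtain ⟨i, hi⟩ := hb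
      right
      simp only [Set.mem_iUnion]
      exact ⟨i, Finset.mem_univ i, hi⟩
    push Not at hb
    left
    apply hball
    intro i
    have h3 := ht i
    have h4 := hb i
    have e1 : Y i t / q - x i = (Y i t - x i * q) / q := by field_simp
    rw [e1, abs_div, abs_of_pos hq0, div_lt_iff₀ hq0]
    have h5 : |Y i t - x i * q| ≤ |Y i t - G i t| + |G i t - x i * q| := by
      have : Y i t - x i * q = (Y i t - G i t) + (G i t - x i * q) := by ring
      rw [this]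
      exact abs_add_le _ _
    have h6 : δ * q + δ * q ≤ ρ / 2 * q := by nlinarith
    have h7 : ρ / 2 * q < ρ * q := by nlinarith
    linarith
  have hm := (measureReal_mono hsub (measure_ne_top (PT T) _)).trans (measureReal_union_le _ _)
  have hb : (PT T).real (⋃ i ∈ (Finset.univ : Finset (Fin k)), {t | δ * q ≤ |Y i t - G i t|}) ≤
      k * Real.exp (-((rate a x + ε) * q)) := by
    refine (measureReal_biUnion_finset_le _ _).trans ?_
    refine (Finset.sum_le_sum fun i _ => h1 i).trans ?_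
    rw [Finset.sum_const, Finset.card_univ, Fintype.card_fin, nsmul_eq_mul]
  have e8 : Real.exp (ε / 4 * q) * Real.exp (-((rate a x + ε) * q)) ≤
      Real.exp ((Qf a θ / 2 - η - (∑ i, θ i * x i + δ * ∑ i, |θ i|)) * q) := by
    rw [← Real.exp_add]
    apply Real.exp_le_exp.2
    rw [hdot, hQ, ← hL]
    have : (-rate a x - ε / 4) * q ≤ (2 * rate a x / 2 - η - (2 * rate a x + δ * L)) * q := by
      apply mul_le_mul_of_nonneg_right _ hq0.le
      linarith
    nlinarith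
  have h9 : 2 * ((k : ℝ) + 1) ≤ Real.exp (ε / 4 * q) := by
    have := Real.add_one_le_exp (ε / 4 * q)
    linarith
  have h10 := mul_le_mul_of_nonneg_right h9 (Real.exp_pos (-((rate a x + ε) * q))).le
  linarith

end

end Pool.Agent.U403.Joint
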